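import Pool.Agent.TH423.DS.Member
import Pool.Agent.H661R3.OP.CR

/-!
The binary quadratic form `G α² + 2 m α β + H β²` with `G H = m² - Lp² D`, evaluated at a row vector
`(1, h)` and at a column vector `(W x, y)` of determinant `d`: algebra (helper576).
-/

set_option autoImplicit false

open Finset Polynomial

namespace Pool.Agent.N576.QA

open Pool.Agent.TH423.DS (comp_lin comp_quad pol_sq zmod_dvd eval_cast map_ne_zero_of)

/-- a quadratic or linear expression in `t`, composed with a polynomial -/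
theorem pol_prod {F : Type} [Field F] (g : F[X]) (hg : g ≠ 0) (μ m0 κ e h e' y E : F) (hμ : μ ≠ 0)
    (hκ : κ ≠ 0) (hh : h ≠ 0) (hy : y ≠ 0 ∨ e' ≠ 0) : ∃ P : F[X], P ≠ 0 ∧
      P.natDegree ≤ 2 * g.natDegree ∧
      ∀ t : F, P.eval t =
        g.eval (κ * ((e + (m0 + t * μ) * h) * (e' + (m0 + t * μ) * y) - E)) := by
  by_cases hy0 : y = 0
  · have he' : e' ≠ 0 := by
      rcases hy with h1 | h1
      · exact absurd hy0 h1
      · exact h1
    obtain ⟨h1, h2⟩ := comp_lin g hg (κ * (h * μ * e')) (κ * ((e + m0 * h) * e' - E))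
      (mul_ne_zero hκ (mul_ne_zero (mul_ne_zero hh hμ) he'))
    refine ⟨_, h1, by rw [h2]; omega, fun t => ?_⟩
    rw [eval_comp]
    simp only [eval_X, eval_C, eval_add, eval_mul]
    congr 1
    rw [hy0]
    ring
  · obtain ⟨h1, h2⟩ := comp_quad g hg (κ * (h * y * μ ^ 2))
      (κ * (h * μ * (e' + m0 * y) + y * μ * (e + m0 * h)))
      (κ * ((e + m0 * h) * (e' + m0 * y) - E))
      (mul_ne_zero hκ (mul_ne_zero (mul_ne_zero hh hy0) (pow_ne_zero _ hμ)))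
    refine ⟨_, h1, by rw [h2]; omega, fun t => ?_⟩
    rw [eval_comp]
    simp only [eval_X, eval_C, eval_add, eval_mul, eval_pow]
    congr 1
    ring

/-- existence of the third coefficient of the form -/
theorem algH (a b c Lp W₁ G m z nst : ℤ) (D W' : ℤ) (hD : D = b ^ 2 - 4 * a * c)
    (hW' : W' = a * (2 * Lp) ^ 2)
    (hGW : IsCoprime G W') (hG1 : W₁ ∣ G - 1)
    (hm : m = Lp * (2 * a * nst + b) + W' * W₁ * z) (hGm : G ∣ m ^ 2 - Lp ^ 2 * D) :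
    ∃ H : ℤ, m ^ 2 - Lp ^ 2 * D = G * (W' * H) ∧ W₁ ∣ H - (a * nst ^ 2 + b * nst + c) := by
  have e1 : m ^ 2 - Lp ^ 2 * D = W' * ((a * nst ^ 2 + b * nst + c) +
      W₁ * (2 * Lp * (2 * a * nst + b) * z + W' * W₁ * z ^ 2)) := by
    rw [hm, hD, hW']; ring
  have h1 : G ∣ (a * nst ^ 2 + b * nst + c) +
      W₁ * (2 * Lp * (2 * a * nst + b) * z + W' * W₁ * z ^ 2) := by
    rw [e1] at hGm
    exact hGW.dvd_of_dvd_mul_left hGm
  obtain ⟨H, hH⟩ := h1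
  refine ⟨H, ?_, ?_⟩
  · rw [e1, hH]; ring
  · obtain ⟨k, hk⟩ := hG1
    refine ⟨(2 * Lp * (2 * a * nst + b) * z + W' * W₁ * z ^ 2) - k * H, ?_⟩
    have : G = 1 + W₁ * k := by linarith
    rw [this] at hH
    linear_combination -hH

/-- the values attached to a row and a column -/
theorem algN (a b c Lp W₁ W G m z nst H x y h d R' : ℤ) (D W' : ℤ) (hD : D = b ^ 2 - 4 * a * c)
    (hW' : W' = a * (2 * Lp) ^ 2) (hW'0 : W' ≠ 0) (hWd : W = W' * W₁)
    (hm : m = Lp * (2 * a * nst + b) + W' * W₁ * z)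
    (hH : m ^ 2 - Lp ^ 2 * D = G * (W' * H)) (hd : y = d + h * W * x)
    (hR : G + 2 * m * h + W' * H * h ^ 2 = d * R') :
    ∃ n C' : ℤ, 2 * Lp ∣ n - nst ∧ Lp * (2 * a * n + b) = W * x * R' + m + W' * H * h ∧
      a * n ^ 2 + b * n + c = R' * C' ∧
      W₁ * (G * W * x ^ 2 + 2 * m * x * y) + H * y ^ 2 = d * C' ∧
      d * G = y ^ 2 * R' - 2 * y * h * (Lp * (2 * a * n + b)) + h ^ 2 * (W' * C') := by
  have hC : ∀ C' : ℤ, C' = W₁ * W * x ^ 2 * R' + 2 * W₁ * x * (m + W' * H * h) + H * d →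
      (W * x * R' + m + W' * H * h) ^ 2 - Lp ^ 2 * D = R' * (W' * C') := by
    intro C' hC'
    rw [hC', hWd]
    rw [hWd] at hd
    linear_combination hH + (W' * H) * hR
  have hn : Lp * (2 * a * (nst + 2 * Lp * (W₁ * x * R' + W₁ * z + H * h)) + b) =
      W * x * R' + m + W' * H * h := by
    rw [hWd, hm, hW']; ring
  refine ⟨nst + 2 * Lp * (W₁ * x * R' + W₁ * z + H * h),
    W₁ * W * x ^ 2 * R' + 2 * W₁ * x * (m + W' * H * h) + H * d,
    ⟨W₁ * x * R' + W₁ * z + H * h, by ring⟩, hn, ?_, ?_, ?_⟩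
  · have h1 := hC _ rfl
    rw [← hn] at h1
    apply mul_left_cancel₀ hW'0
    rw [hD] at h1
    have e : W' * (a * (nst + 2 * Lp * (W₁ * x * R' + W₁ * z + H * h)) ^ 2 +
      b * (nst + 2 * Lp * (W₁ * x * R' + W₁ * z + H * h)) + c) =
      (Lp * (2 * a * (nst + 2 * Lp * (W₁ * x * R' + W₁ * z + H * h)) + b)) ^ 2 -
        Lp ^ 2 * (b ^ 2 - 4 * a * c) := by rw [hW']; ring
    rw [e, h1]
    ring
  · rw [hd, hWd]
    rw [hWd] at hd
    linear_combination (W₁ * (W' * W₁) * x ^ 2) * hR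
  · rw [hn, hd]
    rw [hWd]
    linear_combination d * hR

/-- the roots attached to a row and to a column -/
theorem algRoot (W' W₁ W G m H x y h d R' C' Bp α β c : ℤ) (hWd : W = W' * W₁)
    (hd : y = d + h * W * x) (hd0 : d ≠ 0)
    (hR : G + 2 * m * h + W' * H * h ^ 2 = d * R')
    (hC : W₁ * (G * W * x ^ 2 + 2 * m * x * y) + H * y ^ 2 = d * C')
    (hB : Bp = W * x * R' + m + W' * H * h) (hαβ : α * y - β * (W * x) = 1)
    (hc : c = G * α * (W * x) + m * (α * y + β * (W * x)) + W' * H * β * y) :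
    R' ∣ Bp - (m + W' * H * h) ∧ C' ∣ Bp - c ∧ d ∣ (m + W' * H * h) + c := by
  refine ⟨⟨W * x, by rw [hB]; ring⟩, ⟨(α * h - β) * W', ?_⟩,
    ⟨α * R' * (W * x) + m * α + W' * H * β + α * (m + W' * H * h), ?_⟩⟩
  · apply mul_left_cancel₀ hd0
    have e1 : d * Bp = G * (W * x) + m * (y + h * (W * x)) + W' * H * h * y := by
      rw [hB, hd]
      linear_combination (-(W * x)) * hR
    have e2 : W' * (d * C') = G * (W * x) ^ 2 + 2 * m * (W * x) * y + W' * H * y ^ 2 := by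
      rw [← hC, hWd]; ring
    have e3 : d = y - h * (W * x) := by linarith
    calc d * (Bp - c) = d * Bp - d * c := by ring
      _ = (α * h - β) * (W' * (d * C')) := by
        rw [e1, e2, hc, e3]
        linear_combination (-(G * (W * x) + m * (y + h * (W * x)) + W' * H * h * y)) * hαβ
      _ = d * (C' * ((α * h - β) * W')) := by ring
  · rw [hc]
    have e3 : y = d + h * (W * x) := by linarith
    rw [e3] at hαβ ⊢
    linear_combination (α * (W * x)) * hR - (m + W' * H * h) * hαβ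

/-- the root attached to a row -/
theorem rowRoot (Lp D G m P h : ℤ) (hH : m ^ 2 - Lp ^ 2 * D = G * P) :
    G + 2 * m * h + P * h ^ 2 ∣ (m + P * h) ^ 2 - Lp ^ 2 * D :=
  ⟨P, by linear_combination hH⟩

/-- the root attached to a column -/
theorem colRoot (Lp D W' W₁ W G m H x y α β : ℤ) (hWd : W = W' * W₁)
    (hH : m ^ 2 - Lp ^ 2 * D = G * (W' * H)) (hαβ : α * y - β * (W * x) = 1) :
    W₁ * (G * W * x ^ 2 + 2 * m * x * y) + H * y ^ 2 ∣
      (G * α * (W * x) + m * (α * y + β * (W * x)) + W' * H * β * y) ^ 2 - Lp ^ 2 * D := by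
  refine ⟨W' * (G * α ^ 2 + 2 * m * α * β + W' * H * β ^ 2), ?_⟩
  have e1 : (G * α * (W * x) + m * (α * y + β * (W * x)) + W' * H * β * y) ^ 2 -
      (G * (W * x) ^ 2 + 2 * m * (W * x) * y + W' * H * y ^ 2) *
      (G * α ^ 2 + 2 * m * α * β + W' * H * β ^ 2) =
      (m ^ 2 - G * (W' * H)) * (α * y - β * (W * x)) ^ 2 := by ring
  rw [hαβ] at e1
  have e2 : (W₁ * (G * W * x ^ 2 + 2 * m * x * y) + H * y ^ 2) * W' =
      G * (W * x) ^ 2 + 2 * m * (W * x) * y + W' * H * y ^ 2 := by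
    rw [hWd]; ring
  have e3 : (W₁ * (G * W * x ^ 2 + 2 * m * x * y) + H * y ^ 2) *
      (W' * (G * α ^ 2 + 2 * m * α * β + W' * H * β ^ 2)) =
      (G * (W * x) ^ 2 + 2 * m * (W * x) * y + W' * H * y ^ 2) *
      (G * α ^ 2 + 2 * m * α * β + W' * H * β ^ 2) := by
    rw [← e2]; ring
  rw [e3]
  linear_combination e1 + hH

/-- from square roots of the discriminant to roots of the polynomial -/
theorem root_of_sq (a b c Lp D r M : ℤ) (hD : D = b ^ 2 - 4 * a * c)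
    (hM : IsCoprime M (2 * a * Lp)) (hr : M ∣ r ^ 2 - Lp ^ 2 * D) :
    ∃ ν : ℤ, M ∣ Lp * (2 * a * ν + b) - r ∧ M ∣ a * ν ^ 2 + b * ν + c := by
  obtain ⟨u, v, huv⟩ := hM
  have h1 : M ∣ Lp * (2 * a * (v * (r - Lp * b)) + b) - r :=
    ⟨-(u * (r - Lp * b)), by linear_combination (r - Lp * b) * huv⟩
  refine ⟨v * (r - Lp * b), h1, ?_⟩
  obtain ⟨ν, hν⟩ : ∃ ν : ℤ, ν = v * (r - Lp * b) := ⟨_, rfl⟩
  rw [← hν] at h1 ⊢
  have h2 : M ∣ (Lp * (2 * a * ν + b)) ^ 2 - Lp ^ 2 * D := by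
    have e : (Lp * (2 * a * ν + b)) ^ 2 - Lp ^ 2 * D =
      (Lp * (2 * a * ν + b) - r) * (Lp * (2 * a * ν + b) + r) + (r ^ 2 - Lp ^ 2 * D) := by ring
    rw [e]
    exact dvd_add (h1.mul_right _) hr
  have h3 : (Lp * (2 * a * ν + b)) ^ 2 - Lp ^ 2 * D =
      (2 * a * Lp) * (2 * Lp * (a * ν ^ 2 + b * ν + c)) := by rw [hD]; ring
  have hM' : IsCoprime M (2 * a * Lp) := ⟨u, v, huv⟩
  rw [h3] at h2
  have h4 := hM'.dvd_of_dvd_mul_left h2
  have hM2 : IsCoprime M (2 * Lp) := by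
    have e : 2 * a * Lp = a * (2 * Lp) := by ring
    rw [e] at hM'
    exact hM'.of_mul_right_right
  exact hM2.dvd_of_dvd_mul_left h4

/-- the rows modulo a large prime -/
theorem largeR (Lp W' G D m0 μ h : ℤ) (l : ℕ) (hl : l.Prime)
    (hGl : ¬ (l : ℤ) ∣ G) (hμl : ¬ (l : ℤ) ∣ μ) (hhl : ¬ (l : ℤ) ∣ h)
    (H R : ℕ → ℤ) (hH : ∀ t : ℕ, (m0 + t * μ) ^ 2 - Lp ^ 2 * D = G * (W' * H t))
    (hR : ∀ t, R t = G + 2 * (m0 + t * μ) * h + W' * H t * h ^ 2) :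
    ∃ P : Polynomial (ZMod l), P ≠ 0 ∧ P.natDegree ≤ 2 ∧
      ∀ t : ℕ, ((l : ℤ) ∣ R t ↔ P.eval (t : ZMod l) = 0) := by
  have : Fact l.Prime := ⟨hl⟩
  rw [zmod_dvd] at hGl hμl hhl
  have hHl : ∀ t : ℕ, ((m0 : ZMod l) + (t : ZMod l) * (μ : ZMod l)) ^ 2 -
      (Lp : ZMod l) ^ 2 * (D : ZMod l) = (G : ZMod l) * ((W' : ZMod l) * (H t : ZMod l)) := by
    intro t; have := congrArg (Int.cast : ℤ → ZMod l) (hH t); push_cast at this; exact this
  have hRl : ∀ t : ℕ, (R t : ZMod l) = (G : ZMod l) +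
      2 * ((m0 : ZMod l) + (t : ZMod l) * (μ : ZMod l)) * (h : ZMod l) +
      (W' : ZMod l) * (H t : ZMod l) * (h : ZMod l) ^ 2 := by
    intro t; have := congrArg (Int.cast : ℤ → ZMod l) (hR t); push_cast at this; exact this
  obtain ⟨P, h0, h1, h2⟩ := pol_sq ((μ : ZMod l) * (h : ZMod l)) ((m0 : ZMod l) * (h : ZMod l))
    (-(G : ZMod l)) ((Lp : ZMod l) ^ 2 * (D : ZMod l) * (h : ZMod l) ^ 2) (mul_ne_zero hμl hhl)
  refine ⟨P, h0, h1, fun t => ?_⟩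
  have e1 : ((m0 : ZMod l) * (h : ZMod l) + (t : ZMod l) * ((μ : ZMod l) * (h : ZMod l)) -
      -(G : ZMod l)) ^ 2 - (Lp : ZMod l) ^ 2 * (D : ZMod l) * (h : ZMod l) ^ 2 =
      (G : ZMod l) * (R t : ZMod l) := by
    rw [hRl t]
    linear_combination (h : ZMod l) ^ 2 * hHl t
  rw [h2, e1, zmod_dvd, mul_eq_zero]
  simp [hGl]

theorem not_both {x y : ℤ} (hxy : IsCoprime x y) (l : ℕ) (hl : l.Prime) :
    (y : ZMod l) ≠ 0 ∨ (x : ZMod l) ≠ 0 := by
  have : Fact l.Prime := ⟨hl⟩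
  by_contra hcon
  push Not at hcon
  obtain ⟨u, v, huv⟩ := hxy
  have := congrArg (Int.cast : ℤ → ZMod l) huv
  push_cast at this
  rw [hcon.1, hcon.2, mul_zero, mul_zero, add_zero] at this
  exact zero_ne_one this

/-- the columns modulo a large prime -/
theorem largeC (Lp W' W G D m0 μ x y : ℤ) (l : ℕ) (hl : l.Prime)
    (hGl : ¬ (l : ℤ) ∣ G) (hWl : ¬ (l : ℤ) ∣ W) (hW'l : ¬ (l : ℤ) ∣ W') (hμl : ¬ (l : ℤ) ∣ μ)
    (hxy : IsCoprime x y)
    (H C : ℕ → ℤ) (hH : ∀ t : ℕ, (m0 + t * μ) ^ 2 - Lp ^ 2 * D = G * (W' * H t))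
    (hC : ∀ t, W' * C t = G * W ^ 2 * x ^ 2 + 2 * (m0 + t * μ) * W * x * y + W' * H t * y ^ 2) :
    ∃ P : Polynomial (ZMod l), P ≠ 0 ∧ P.natDegree ≤ 2 ∧
      ∀ t : ℕ, ((l : ℤ) ∣ C t ↔ P.eval (t : ZMod l) = 0) := by
  have : Fact l.Prime := ⟨hl⟩
  have hxyl := not_both hxy l hl
  rw [zmod_dvd] at hGl hWl hW'l hμl
  have hHl : ∀ t : ℕ, ((m0 : ZMod l) + (t : ZMod l) * (μ : ZMod l)) ^ 2 -
      (Lp : ZMod l) ^ 2 * (D : ZMod l) = (G : ZMod l) * ((W' : ZMod l) * (H t : ZMod l)) := by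
    intro t; have := congrArg (Int.cast : ℤ → ZMod l) (hH t); push_cast at this; exact this
  have hCl : ∀ t : ℕ, (W' : ZMod l) * (C t : ZMod l) =
      (G : ZMod l) * (W : ZMod l) ^ 2 * (x : ZMod l) ^ 2 +
      2 * ((m0 : ZMod l) + (t : ZMod l) * (μ : ZMod l)) * (W : ZMod l) * (x : ZMod l) *
      (y : ZMod l) + (W' : ZMod l) * (H t : ZMod l) * (y : ZMod l) ^ 2 := by
    intro t; have := congrArg (Int.cast : ℤ → ZMod l) (hC t); push_cast at this; exact this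
  have key : ∀ t : ℕ, ((G : ZMod l) * (W : ZMod l) * (x : ZMod l) +
      ((m0 : ZMod l) + (t : ZMod l) * (μ : ZMod l)) * (y : ZMod l)) ^ 2 -
      (Lp : ZMod l) ^ 2 * (D : ZMod l) * (y : ZMod l) ^ 2 =
      (G : ZMod l) * (W' : ZMod l) * (C t : ZMod l) := by
    intro t
    linear_combination (y : ZMod l) ^ 2 * hHl t - (G : ZMod l) * hCl t
  by_cases hy0 : (y : ZMod l) = 0
  · have hx0 : (x : ZMod l) ≠ 0 := by
      rcases hxyl with h1 | h1
      · exact absurd hy0 h1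
      · exact h1
    refine ⟨Polynomial.C 1, by simp, by simp, fun t => ?_⟩
    rw [eval_C, zmod_dvd]
    have h1 := key t
    rw [hy0] at h1
    constructor
    · intro h2
      exfalso
      rw [h2] at h1
      have h3 : ((G : ZMod l) * (W : ZMod l) * (x : ZMod l)) ^ 2 = 0 := by
        linear_combination h1
      exact (pow_ne_zero 2 (mul_ne_zero (mul_ne_zero hGl hWl) hx0)) h3
    · intro h2
      exact absurd h2 one_ne_zero
  · obtain ⟨P, h0, h1, h2⟩ := pol_sq ((μ : ZMod l) * (y : ZMod l)) ((m0 : ZMod l) * (y : ZMod l))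
      (-((G : ZMod l) * (W : ZMod l) * (x : ZMod l)))
      ((Lp : ZMod l) ^ 2 * (D : ZMod l) * (y : ZMod l) ^ 2) (mul_ne_zero hμl hy0)
    refine ⟨P, h0, h1, fun t => ?_⟩
    have e1 : ((m0 : ZMod l) * (y : ZMod l) + (t : ZMod l) * ((μ : ZMod l) * (y : ZMod l)) -
        -((G : ZMod l) * (W : ZMod l) * (x : ZMod l))) ^ 2 -
        (Lp : ZMod l) ^ 2 * (D : ZMod l) * (y : ZMod l) ^ 2 =
        (G : ZMod l) * (W' : ZMod l) * (C t : ZMod l) := by
      rw [← key t]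
      ring
    rw [h2, e1, zmod_dvd, mul_eq_zero, mul_eq_zero]
    simp [hGl, hW'l]

/-- the values modulo a large prime -/
theorem largeG (a b : ℤ) (g : ℤ[X]) (Lp W' W G D m0 μ h x y d : ℤ) (l : ℕ) (hl : l.Prime)
    (hgl : ∃ n : ℤ, ¬ (l : ℤ) ∣ g.eval n) (hW' : W' = a * (2 * Lp) ^ 2)
    (hGl : ¬ (l : ℤ) ∣ G) (hWl : ¬ (l : ℤ) ∣ W) (hW'l : ¬ (l : ℤ) ∣ W') (hμl : ¬ (l : ℤ) ∣ μ)
    (hhl : ¬ (l : ℤ) ∣ h) (hdl : ¬ (l : ℤ) ∣ d) (hxy : IsCoprime x y)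
    (H n : ℕ → ℤ) (hH : ∀ t : ℕ, (m0 + t * μ) ^ 2 - Lp ^ 2 * D = G * (W' * H t))
    (hn : ∀ t, d * (Lp * (2 * a * n t + b)) =
      G * W * x + (m0 + t * μ) * (y + h * W * x) + W' * H t * h * y) :
    ∃ P : Polynomial (ZMod l), P ≠ 0 ∧ P.natDegree ≤ 2 * g.natDegree ∧
      ∀ t : ℕ, ((l : ℤ) ∣ g.eval (n t) ↔ P.eval (t : ZMod l) = 0) := by
  have : Fact l.Prime := ⟨hl⟩
  have hg0 := map_ne_zero_of g hgl
  have hxyl := not_both hxy l hl
  rw [zmod_dvd] at hGl hWl hW'l hμl hhl hdl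
  have haL : (2 : ZMod l) * (a : ZMod l) * (Lp : ZMod l) ≠ 0 := by
    intro h0
    apply hW'l
    rw [hW']
    push_cast
    linear_combination (2 * (Lp : ZMod l)) * h0
  have hHl : ∀ t : ℕ, ((m0 : ZMod l) + (t : ZMod l) * (μ : ZMod l)) ^ 2 -
      (Lp : ZMod l) ^ 2 * (D : ZMod l) = (G : ZMod l) * ((W' : ZMod l) * (H t : ZMod l)) := by
    intro t; have := congrArg (Int.cast : ℤ → ZMod l) (hH t); push_cast at this; exact this
  have hnl : ∀ t : ℕ, (d : ZMod l) * ((Lp : ZMod l) * (2 * (a : ZMod l) * (n t : ZMod l) +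
      (b : ZMod l))) = (G : ZMod l) * (W : ZMod l) * (x : ZMod l) +
      ((m0 : ZMod l) + (t : ZMod l) * (μ : ZMod l)) *
      ((y : ZMod l) + (h : ZMod l) * (W : ZMod l) * (x : ZMod l)) +
      (W' : ZMod l) * (H t : ZMod l) * (h : ZMod l) * (y : ZMod l) := by
    intro t; have := congrArg (Int.cast : ℤ → ZMod l) (hn t); push_cast at this; exact this
  obtain ⟨κ, hκ⟩ : ∃ κ : ZMod l, (G : ZMod l) * (d : ZMod l) *
      (2 * (a : ZMod l) * (Lp : ZMod l)) * κ = 1 :=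
    ⟨_, mul_inv_cancel₀ (mul_ne_zero (mul_ne_zero hGl hdl) haL)⟩
  have hκ0 : κ ≠ 0 := by rintro rfl; rw [mul_zero] at hκ; exact zero_ne_one hκ
  obtain ⟨P, h0, h1, h2⟩ := pol_prod _ hg0 (μ : ZMod l) (m0 : ZMod l) κ (G : ZMod l)
    (h : ZMod l) ((G : ZMod l) * (W : ZMod l) * (x : ZMod l)) (y : ZMod l)
    ((Lp : ZMod l) ^ 2 * (D : ZMod l) * (h : ZMod l) * (y : ZMod l) +
      (Lp : ZMod l) * (b : ZMod l) * (G : ZMod l) * (d : ZMod l)) hμl hκ0 hhl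
    (hxyl.imp id fun h1 => mul_ne_zero (mul_ne_zero hGl hWl) h1)
  refine ⟨P, h0, h1.trans (Nat.mul_le_mul_left _ natDegree_map_le), fun t => ?_⟩
  rw [h2, zmod_dvd, eval_cast]
  have e8 : (G : ZMod l) * (d : ZMod l) * (2 * (a : ZMod l) * (Lp : ZMod l)) * (n t : ZMod l) =
      ((G : ZMod l) + ((m0 : ZMod l) + (t : ZMod l) * (μ : ZMod l)) * (h : ZMod l)) *
      ((G : ZMod l) * (W : ZMod l) * (x : ZMod l) +
        ((m0 : ZMod l) + (t : ZMod l) * (μ : ZMod l)) * (y : ZMod l)) -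
      ((Lp : ZMod l) ^ 2 * (D : ZMod l) * (h : ZMod l) * (y : ZMod l) +
      (Lp : ZMod l) * (b : ZMod l) * (G : ZMod l) * (d : ZMod l)) := by
    linear_combination (G : ZMod l) * hnl t - ((h : ZMod l) * (y : ZMod l)) * hHl t
  have e1 : (n t : ZMod l) = κ *
      (((G : ZMod l) + ((m0 : ZMod l) + (t : ZMod l) * (μ : ZMod l)) * (h : ZMod l)) *
      ((G : ZMod l) * (W : ZMod l) * (x : ZMod l) +
        ((m0 : ZMod l) + (t : ZMod l) * (μ : ZMod l)) * (y : ZMod l)) -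
      ((Lp : ZMod l) ^ 2 * (D : ZMod l) * (h : ZMod l) * (y : ZMod l) +
      (Lp : ZMod l) * (b : ZMod l) * (G : ZMod l) * (d : ZMod l))) := by
    linear_combination (-(n t : ZMod l)) * hκ + κ * e8
  rw [e1]

theorem not_dvd_one {l : ℕ} (hl : l.Prime) : ¬ (l : ℤ) ∣ 1 := by
  intro h0
  have h4 := Int.le_of_dvd one_pos h0
  have := hl.two_le
  omega

/-- the rows modulo a small prime -/
theorem smallR (W' G m H h : ℤ) (l : ℕ) (hl : l.Prime) (hlW' : (l : ℤ) ∣ W')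
    (hG : (l : ℤ) ∣ G - 1) (hlm : (l : ℤ) ∣ m) :
    ¬ (l : ℤ) ∣ G + 2 * m * h + W' * H * h ^ 2 := by
  intro h0
  apply not_dvd_one hl
  have e : (1 : ℤ) = (G + 2 * m * h + W' * H * h ^ 2) - (G - 1) - m * (2 * h) -
      W' * (H * h ^ 2) := by ring
  rw [e]
  exact dvd_sub (dvd_sub (dvd_sub h0 hG) (hlm.mul_right _)) (hlW'.mul_right _)

/-- the columns modulo a small prime -/
theorem smallC (W₁ u H y v : ℤ) (l : ℕ) (hlW : (l : ℤ) ∣ W₁) (hf : ¬ (l : ℤ) ∣ v)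
    (hy : (l : ℤ) ∣ y - 1) (hH : W₁ ∣ H - v) :
    ¬ (l : ℤ) ∣ W₁ * u + H * y ^ 2 := by
  intro h0
  have h2 : (l : ℤ) ∣ H * y ^ 2 := (dvd_add_right (hlW.mul_right _)).1 h0
  apply hf
  have e : v = H * y ^ 2 - (y - 1) * (H * (y + 1)) - (H - v) := by ring
  rw [e]
  exact dvd_sub (dvd_sub h2 (hy.mul_right _)) (hlW.trans hH)

/-- the values modulo a small prime -/
theorem smallG (g : ℤ[X]) (Lp n nst : ℤ) (l : ℕ) (hlL : (l : ℤ) ∣ Lp)
    (hg : ¬ (l : ℤ) ∣ g.eval nst) (hn : 2 * Lp ∣ n - nst) : ¬ (l : ℤ) ∣ g.eval n := by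
  intro h0
  have h2 : (l : ℤ) ∣ n - nst := (hlL.mul_left _).trans hn
  have h3 := h2.trans (sub_dvd_eval_sub n nst g)
  exact hg ((dvd_sub_right h0).1 h3)

/-- the determinants divide the rows -/
theorem dvdR (D Lp G m W' H h d ρ s : ℤ) (hH : m ^ 2 - Lp ^ 2 * D = G * (W' * H))
    (hρ : d ∣ ρ ^ 2 - Lp ^ 2 * D) (hs : d ∣ h * s - (ρ * h - G)) (hm : d ∣ m - s)
    (hGd : IsCoprime d G) : d ∣ G + 2 * m * h + W' * H * h ^ 2 := by
  have e1 : G * (G + 2 * m * h + W' * H * h ^ 2) =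
      ((m - s) * h + (h * s - (ρ * h - G))) * (G + m * h + ρ * h) +
        (ρ ^ 2 - Lp ^ 2 * D) * h ^ 2 := by
    linear_combination (-h ^ 2) * hH
  apply hGd.dvd_of_dvd_mul_left
  rw [e1]
  exact dvd_add ((dvd_add (hm.mul_right _) hs).mul_right _) (hρ.mul_right _)

/-- the Chinese remainder theorem -/
theorem crt3 {κ : Type} [Fintype κ] (W G : ℤ) (d : κ → ℤ) (hWG : IsCoprime W G)
    (hWd : ∀ p, IsCoprime W (d p)) (hGd : ∀ p, IsCoprime G (d p))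
    (hdd : ∀ p q, p ≠ q → IsCoprime (d p) (d q)) (hW : 0 < W) (hG : 0 < G) (hd : ∀ p, 0 < d p)
    (r₁ r₂ : ℤ) (r₃ : κ → ℤ) : ∃ m0 : ℤ, W * G * ∏ p, d p ≤ m0 ∧ m0 < 2 * (W * G * ∏ p, d p) ∧
      W ∣ m0 - r₁ ∧ G ∣ m0 - r₂ ∧ ∀ p, d p ∣ m0 - r₃ p := by
  obtain ⟨x, hx⟩ := Pool.Agent.H661R3.OP.t_CR (Option (Option κ))
    (fun o => o.elim W (fun o' => o'.elim G d)) (fun o => o.elim r₁ (fun o' => o'.elim r₂ r₃)) (by
      intro i j hij
      rcases i with _ | _ | i <;> rcases j with _ | _ | j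
      · exact absurd rfl hij
      · exact hWG
      · exact hWd j
      · exact hWG.symm
      · exact absurd rfl hij
      · exact hGd j
      · exact (hWd i).symm
      · exact (hGd i).symm
      · exact hdd i j fun h => hij (by rw [h]))
  have hμ : 0 < W * G * ∏ p, d p := mul_pos (mul_pos hW hG) (prod_pos fun p _ => hd p)
  refine ⟨x % (W * G * ∏ p, d p) + W * G * ∏ p, d p, ?_, ?_, ?_, ?_, ?_⟩
  · have := Int.emod_nonneg x hμ.ne'
    linarith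
  · have := Int.emod_lt_of_pos x hμ
    linarith
  all_goals
    have key : (W * G * ∏ p, d p) ∣ x % (W * G * ∏ p, d p) + W * G * ∏ p, d p - x :=
      ⟨1 - x / (W * G * ∏ p, d p), by
        have := Int.emod_add_mul_ediv x (W * G * ∏ p, d p)
        linear_combination this⟩
  · have h1 : W ∣ x - r₁ := hx none
    have h2 : W ∣ W * G * ∏ p, d p := ⟨G * ∏ p, d p, by ring⟩
    rw [show x % (W * G * ∏ p, d p) + W * G * ∏ p, d p - r₁ =
      (x % (W * G * ∏ p, d p) + W * G * ∏ p, d p - x) + (x - r₁) by ring]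
    exact dvd_add (h2.trans key) h1
  · have h1 : G ∣ x - r₂ := hx (some none)
    have h2 : G ∣ W * G * ∏ p, d p := ⟨W * ∏ p, d p, by ring⟩
    rw [show x % (W * G * ∏ p, d p) + W * G * ∏ p, d p - r₂ =
      (x % (W * G * ∏ p, d p) + W * G * ∏ p, d p - x) + (x - r₂) by ring]
    exact dvd_add (h2.trans key) h1
  · intro p
    have h1 : d p ∣ x - r₃ p := hx (some (some p))
    have h2 : d p ∣ W * G * ∏ p, d p := (dvd_prod_of_mem d (mem_univ p)).mul_left _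
    rw [show x % (W * G * ∏ p, d p) + W * G * ∏ p, d p - r₃ p =
      (x % (W * G * ∏ p, d p) + W * G * ∏ p, d p - x) + (x - r₃ p) by ring]
    exact dvd_add (h2.trans key) h1

end Pool.Agent.N576.QA
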