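import Pool.Agent.N576.QA.Family
import Pool.Agent.TH423.PO.All
import Pool.Agent.TH423.DS.Arith

/-! One exceptional integer for every large prime (helper576). -/

set_option autoImplicit false

open Finset Polynomial

namespace Pool.Agent.N576.QA

open Pool.Agent.H661R3.OP (Rough)
open Pool.Agent.TH423.SH (dd)
open Pool.Agent.TH423.PO.ST1A (dd_pos dd_cast dvd_sub_one dd_cop)
open Pool.Agent.TH423.DS (sq_prime sq_prod exists_nst Rough.mul Rough.of_mul_left)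

/-- the integers that are counted -/
def Exc {Γ : Type} (a b c : ℤ) {s : ℕ} (g : Fin s → ℤ[X]) (Φ : ℕ → ℤ → Γ) (T : Set Γ)
    (Y X : ℕ) : Set ℕ :=
  {n : ℕ | 1 ≤ n ∧ n ≤ X ∧ 0 < a * (n : ℤ) ^ 2 + b * n + c ∧ Rough Y (a * (n : ℤ) ^ 2 + b * n + c) ∧
    (∀ j, Rough Y ((g j).eval (n : ℤ))) ∧ Φ (a * (n : ℤ) ^ 2 + b * n + c).natAbs n ∈ T}

theorem Phi_list {Γ : Type} [AddCommGroup Γ] (Φ : ℕ → ℤ → Γ) (f : ℤ → ℤ)
    (hΦ : ∀ r s : ℕ, r ≠ 0 → s ≠ 0 → ∀ ν : ℤ, ((r * s : ℕ) : ℤ) ∣ f ν →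
      Φ (r * s) ν = Φ r ν + Φ s ν) (γ : Γ) (ν ν' : ℤ) (l : List ℕ)
    (h0 : ∀ p ∈ l, p ≠ 0) (hl : ∀ p ∈ l, Φ p ν + Φ p ν' = γ) (hν : (l.prod : ℤ) ∣ f ν)
    (hν' : (l.prod : ℤ) ∣ f ν') : Φ l.prod ν + Φ l.prod ν' = l.length • γ := by
  induction l with
  | nil =>
    have h1 : ∀ ν, Φ 1 ν = 0 := by
      intro ν
      have := hΦ 1 1 one_ne_zero one_ne_zero ν (by simp)
      rw [mul_one] at this
      simpa using this
    rw [List.prod_nil, h1, h1]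
    simp
  | cons p l ih =>
    have hl0 : l.prod ≠ 0 := fun h => h0 0 (List.mem_cons_of_mem _ (List.prod_eq_zero_iff.1 h)) rfl
    rw [List.prod_cons] at hν hν' ⊢
    rw [hΦ p l.prod (h0 p List.mem_cons_self) hl0 ν hν,
      hΦ p l.prod (h0 p List.mem_cons_self) hl0 ν' hν']
    have h2 : ((l.prod : ℕ) : ℤ) ∣ ((p * l.prod : ℕ) : ℤ) :=
      Int.natCast_dvd_natCast.2 (Dvd.intro_left _ rfl)
    have h3 := ih (fun q hq => h0 q (List.mem_cons_of_mem _ hq))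
      (fun q hq => hl q (List.mem_cons_of_mem _ hq)) (h2.trans hν) (h2.trans hν')
    have h4 := hl p List.mem_cons_self
    rw [List.length_cons, add_nsmul, one_nsmul, ← h3, ← h4]
    abel

theorem Phi_card {Γ : Type} [AddCommGroup Γ] (Φ : ℕ → ℤ → Γ) (f : ℤ → ℤ)
    (hΦ : ∀ r s : ℕ, r ≠ 0 → s ≠ 0 → ∀ ν : ℤ, ((r * s : ℕ) : ℤ) ∣ f ν →
      Φ (r * s) ν = Φ r ν + Φ s ν) (γ : Γ) (ν ν' : ℤ) (d : ℕ) (hd : d ≠ 0)
    (h : ∀ q : ℕ, q.Prime → q ∣ d → Φ q ν + Φ q ν' = γ) (hν : (d : ℤ) ∣ f ν)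
    (hν' : (d : ℤ) ∣ f ν') :
    Φ d ν + Φ d ν' = (ArithmeticFunction.cardFactors d) • γ := by
  have h1 := Phi_list Φ f hΦ γ ν ν' d.primeFactorsList
    (fun p hp => (Nat.prime_of_mem_primeFactorsList hp).ne_zero)
    (fun p hp => h p (Nat.prime_of_mem_primeFactorsList hp) (Nat.dvd_of_mem_primeFactorsList hp))
    (by rw [Nat.prod_primeFactorsList hd]; exact hν) (by rw [Nat.prod_primeFactorsList hd]; exact hν')
  rw [Nat.prod_primeFactorsList hd] at h1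
  rw [h1, ArithmeticFunction.cardFactors_apply]

theorem add_sub_helper {Γ : Type} [AddCommGroup Γ] {A B p q r s : Γ} (h1 : A = p + q)
    (h2 : B = r + s) : A + B - (p + r) = q + s := by
  rw [h1, h2]
  abel

/-- square roots modulo squarefree numbers -/
theorem sq_squarefree (D : ℤ) (hD : D ≠ 0) (Lp : ℤ) (d : ℕ) (hd : Squarefree d)
    (h : ∀ q : ℕ, q.Prime → q ∣ d → ((4 * D.natAbs : ℕ) : ℤ) ∣ (q : ℤ) - 1) :
    ∃ ρ : ℤ, (d : ℤ) ∣ ρ ^ 2 - Lp ^ 2 * D := by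
  obtain ⟨ρ, hρ⟩ := sq_prod (κ := {q // q ∈ d.primeFactors}) (fun q => ((q : ℕ) : ℤ)) (Lp ^ 2 * D)
    (by
      intro p q hpq
      have hp := Nat.prime_of_mem_primeFactors p.2
      have hq := Nat.prime_of_mem_primeFactors q.2
      exact Nat.isCoprime_iff_coprime.2
        ((Nat.coprime_primes hp hq).2 fun h' => hpq (Subtype.ext h')))
    (by
      intro q
      obtain ⟨ρ, hρ⟩ := sq_prime D hD q (Nat.prime_of_mem_primeFactors q.2)
        (h q (Nat.prime_of_mem_primeFactors q.2) (Nat.dvd_of_mem_primeFactors q.2))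
      refine ⟨Lp * ρ, ?_⟩
      have e : (Lp * ρ) ^ 2 - Lp ^ 2 * D = Lp ^ 2 * (ρ ^ 2 - D) := by ring
      rw [e]
      exact hρ.mul_left _)
  refine ⟨ρ, ?_⟩
  have h1 : (∏ q : {q // q ∈ d.primeFactors}, ((q : ℕ) : ℤ)) = (d : ℤ) := by
    rw [Finset.prod_coe_sort d.primeFactors (fun q => (q : ℤ))]
    have h2 := Nat.prod_primeFactors_of_squarefree hd
    calc ∏ q ∈ d.primeFactors, (q : ℤ) = ((∏ q ∈ d.primeFactors, q : ℕ) : ℤ) := by push_cast; rfl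
      _ = (d : ℤ) := by rw [h2]
  rwa [h1] at hρ

theorem mod_one_dvd {M q : ℕ} (h : q % M = 1 % M) : (M : ℤ) ∣ (q : ℤ) - 1 := by
  have h1 : (1 : ℕ) ≡ q [MOD M] := h.symm
  have h2 := (Nat.modEq_iff_dvd).1 h1
  simpa using h2

theorem size_bound (A E h G Z m P R' u a b Lp n : ℤ) (hA : 1 ≤ A) (hE : 1 ≤ E) (hh : 1 ≤ h)
    (hG : 0 < G) (hGZ : G ≤ 2 * Z) (hm : 0 < m) (hmA : m ≤ A * G) (hP : 0 < P)
    (hPG : P * G ≤ 2 * m ^ 2) (huE : u ≤ E) (hR0 : 0 < R')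
    (hR : R' ≤ G + 2 * m * h + P * h ^ 2) (ha : 0 < a) (hLp : 0 < Lp)
    (hn : Lp * (2 * a * n + b) = u * R' + m + P * h) (hb : Lp * |b| ≤ A * G) (hn0 : 0 < n) :
    n ≤ 24 * E * A ^ 2 * h ^ 2 * Z := by
  have hAG : 0 < A * G := by positivity
  have hP2 : P ≤ 2 * A ^ 2 * G := by
    have h1 : m ^ 2 ≤ (A * G) ^ 2 := pow_le_pow_left₀ hm.le hmA 2
    have h2 : P * G ≤ (2 * A ^ 2 * G) * G := by
      calc P * G ≤ 2 * m ^ 2 := hPG
        _ ≤ 2 * (A * G) ^ 2 := by linarith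
        _ = (2 * A ^ 2 * G) * G := by ring
    exact le_of_mul_le_mul_right h2 hG
  obtain ⟨B, hB⟩ : ∃ B : ℤ, B = A ^ 2 * h ^ 2 * G := ⟨_, rfl⟩
  have hB0 : 0 < B := by rw [hB]; positivity
  have hA2 : A ≤ A ^ 2 := le_self_pow₀ hA two_ne_zero
  have hh2 : h ≤ h ^ 2 := le_self_pow₀ hh two_ne_zero
  have h1A : 1 ≤ A ^ 2 := one_le_pow₀ hA
  have h1h : 1 ≤ h ^ 2 := one_le_pow₀ hh
  have e1 : G ≤ B := by
    rw [hB]
    calc G = 1 * 1 * G := by ring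
      _ ≤ A ^ 2 * h ^ 2 * G := by
        apply mul_le_mul_of_nonneg_right _ hG.le
        exact mul_le_mul h1A h1h (by norm_num) (by positivity)
  have e2 : A * G ≤ B := by
    rw [hB]
    calc A * G = A * 1 * G := by ring
      _ ≤ A ^ 2 * h ^ 2 * G := by
        apply mul_le_mul_of_nonneg_right _ hG.le
        exact mul_le_mul hA2 h1h (by norm_num) (by positivity)
  have e3 : m * h ≤ B := by
    rw [hB]
    calc m * h ≤ (A * G) * h := mul_le_mul_of_nonneg_right hmA (by linarith)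
      _ = A * h * G := by ring
      _ ≤ A ^ 2 * h ^ 2 * G := by
        apply mul_le_mul_of_nonneg_right _ hG.le
        exact mul_le_mul hA2 hh2 (by linarith) (by positivity)
  have e4 : P * h ^ 2 ≤ 2 * B := by
    rw [hB]
    calc P * h ^ 2 ≤ (2 * A ^ 2 * G) * h ^ 2 := mul_le_mul_of_nonneg_right hP2 (by positivity)
      _ = 2 * (A ^ 2 * h ^ 2 * G) := by ring
  have e5 : P * h ≤ 2 * B := (mul_le_mul_of_nonneg_left hh2 hP.le).trans e4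
  have e6 : R' ≤ 5 * B := by linarith
  have e7 : u * R' ≤ E * (5 * B) := mul_le_mul huE e6 hR0.le (by linarith)
  have e8 : B ≤ E * B := by nlinarith
  have e9 : n ≤ Lp * (2 * a * n) := by
    have h1 : 1 ≤ Lp * (2 * a) := by
      have : (1 : ℤ) ≤ Lp := hLp
      have : (1 : ℤ) ≤ a := ha
      nlinarith
    have h2 : Lp * (2 * a * n) = (Lp * (2 * a)) * n := by ring
    rw [h2]
    nlinarith
  have e10 : -(Lp * b) ≤ Lp * |b| := by
    have := mul_le_mul_of_nonneg_left (neg_abs_le b) hLp.le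
    linarith
  have e11 : n ≤ 9 * (E * B) := by
    have : Lp * (2 * a * n) = u * R' + m + P * h - Lp * b := by linarith
    linarith
  have e12 : E * B ≤ 2 * (E * A ^ 2 * h ^ 2 * Z) := by
    rw [hB]
    have h3 : E * A ^ 2 * h ^ 2 * G ≤ E * A ^ 2 * h ^ 2 * (2 * Z) :=
      mul_le_mul_of_nonneg_left hGZ (by positivity)
    linarith
  have e13 : 0 ≤ E * A ^ 2 * h ^ 2 * Z := by
    have : 0 < Z := by linarith
    positivity
  linarith

theorem core (a b c : ℤ) (ha : 0 < a) (hD : b ^ 2 - 4 * a * c ≠ 0) {s : ℕ} (g : Fin s → ℤ[X])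
    (hadm : ∀ p : ℕ, p.Prime → ∃ n : ℤ, ¬ (p : ℤ) ∣ a * n ^ 2 + b * n + c ∧
      ∀ j, ¬ (p : ℤ) ∣ (g j).eval n) (Γ : Type) [AddCommGroup Γ] [Finite Γ] (γ : Γ) (q₀ : ℕ)
    (hq₀ : 0 < q₀) :
    ∃ q C₂ C₃ Y₀ L : ℕ, 0 < q ∧ 2 ≤ Y₀ ∧ ∀ Y Z X : ℕ, Y₀ ≤ Y → Y ^ C₃ ≤ Z → Y ^ C₂ * Z ≤ X →
    ∀ (Φ : ℕ → ℤ → Γ), (∀ r s : ℕ, r ≠ 0 → s ≠ 0 → ∀ ν : ℤ,
      ((r * s : ℕ) : ℤ) ∣ a * ν ^ 2 + b * ν + c → Φ (r * s) ν = Φ r ν + Φ s ν) →
    (∀ r : ℕ, r ≠ 0 → ∀ ν ν' : ℤ, (r : ℤ) ∣ a * ν ^ 2 + b * ν + c → (r : ℤ) ∣ ν - ν' →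
      Φ r ν = Φ r ν') →
    (∀ p : ℕ, p.Prime → p % q₀ = 1 % q₀ → Y < p → p ≤ Y ^ C₃ → ∀ ν ν' : ℤ,
      (p : ℤ) ∣ a * ν ^ 2 + b * ν + c → (p : ℤ) ∣ a * ν' ^ 2 + b * ν' + c →
      ¬ (p : ℤ) ∣ ν - ν' → Φ p ν + Φ p ν' = γ) → ∀ (T : Set Γ),
    (∀ h : Γ, ∃ j : ℕ, h - j • γ ∈ T) → ∃ Ψ : ℕ → ℕ → Fin L → ℕ,
    ∀ G : ℕ, G.Prime → Z < G → G ≤ 2 * Z → (q : ℤ) ∣ (G : ℤ) - 1 →
    ∃ n ∈ Exc a b c g Φ T Y X, ∃ R' : ℕ, R' ∣ (a * (n : ℤ) ^ 2 + b * n + c).natAbs ∧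
      ∃ p, G = Ψ n R' p := by
  classical
  have : Fintype Γ := Fintype.ofFinite Γ
  obtain ⟨D, hDdef⟩ : ∃ D : ℤ, D = b ^ 2 - 4 * a * c := ⟨_, rfl⟩
  rw [← hDdef] at hD
  have hDn : 0 < D.natAbs := Int.natAbs_pos.2 hD
  have hK : 1 ≤ Fintype.card Γ := Fintype.card_pos
  obtain ⟨r, W₀, hr, hW₀, hccp⟩ := Pool.Agent.TH423.PO.ccp_all (Fintype.card Γ)
    (4 * D.natAbs * q₀) hK (Nat.one_le_iff_ne_zero.2 (by positivity)) Γ Γ
  obtain ⟨N, hN⟩ : ∃ N : ℕ, N = Fintype.card (Fin r → Γ) := ⟨_, rfl⟩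
  obtain ⟨k, hk⟩ : ∃ k : ℕ, k = 2 * r + 2 * N + r * N * (2 * ∑ j, (g j).natDegree) + a.toNat +
    W₀ := ⟨_, rfl⟩
  have hk1 : 1 ≤ k := by omega
  have hak : a ≤ k := by omega
  obtain ⟨nst, hnf, hng⟩ := exists_nst (2 * k) (C a * X ^ 2 + C b * X + C c) g (by
    intro p hp
    obtain ⟨n, h1, h2⟩ := hadm p hp
    refine ⟨n, ?_, h2⟩
    simpa using h1)
  obtain ⟨Lp, hLpdef⟩ : ∃ Lp : ℕ, Lp = primorial (2 * k) := ⟨_, rfl⟩
  have hLpd : ∀ p : ℕ, p.Prime → (p ∣ Lp ↔ p ≤ 2 * k) := by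
    intro p hp
    rw [hLpdef, hp.dvd_primorial_iff]
  have hLp0 : 0 < Lp := by rw [hLpdef]; exact primorial_pos _
  have hLp0' : (0 : ℤ) < Lp := by exact_mod_cast hLp0
  obtain ⟨W', hW'⟩ : ∃ W' : ℕ, (W' : ℤ) = a * (2 * (Lp : ℤ)) ^ 2 :=
    ⟨(a * (2 * (Lp : ℤ)) ^ 2).toNat, Int.toNat_of_nonneg (by positivity)⟩
  obtain ⟨W₁, hW₁⟩ : ∃ W₁ : ℕ, W₁ = W₀ * Lp := ⟨_, rfl⟩
  obtain ⟨W, hW⟩ : ∃ W : ℕ, W = W' * W₁ := ⟨_, rfl⟩
  have hW'0 : 0 < W' := by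
    have : (0 : ℤ) < W' := by rw [hW']; positivity
    exact_mod_cast this
  have hW₁0 : 0 < W₁ := by rw [hW₁]; positivity
  have hW0 : 0 < W := by rw [hW]; positivity
  obtain ⟨Cs, hCs⟩ := family a b c ha g k hk1 Lp hLp0 hLpd hak W₁ hW₁0
    ⟨W₀, by rw [hW₁]; ring⟩ (by
      intro p hp h
      rw [hW₁] at h
      rcases (hp.dvd_mul).1 h with h | h
      · have := Nat.le_of_dvd hW₀ h
        omega
      · exact (hLpd p hp).1 h) nst
    (by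
      intro p hp hpk
      have := hnf p hp hpk
      simpa using this)
    (fun j p hp hpk => hng j p hp hpk)
    (fun j p hp => by
      obtain ⟨n, -, h2⟩ := hadm p hp
      exact ⟨n, h2 j⟩) D hDdef W' W hW' hW
  obtain ⟨Bd, Y₁, hBd, hcc⟩ := hccp W ⟨W' * Lp, by rw [hW, hW₁]; ring⟩ hW0
  refine ⟨4 * D.natAbs * W, Bd + 2 * (Cs + 1 + Bd * (r * N)) + 3, Bd + 1,
    24 + 2 * k + D.natAbs + b.natAbs + 3 * W + Y₁, Fintype.card (Fin r × (Fin r → Γ)),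
    by positivity, by omega, ?_⟩
  intro Y Z X hY hYZ hZX Φ hΦ hΦ' hΦγ T hT
  choose jT hjT using hT
  obtain ⟨x, y, u, hxy, hdd, hcop⟩ := hcc Y (by omega) (fun z β => (jT (z + β) : ZMod _))
  have eqv := Fintype.equivFin (Fin r × (Fin r → Γ))
  refine ⟨fun n R' p =>
    ((((y (eqv.symm p).2 : ℤ)) ^ 2 * R' - 2 * (y (eqv.symm p).2) *
      ((((eqv.symm p).1 : ℕ) + 1 : ℕ) : ℤ) * ((Lp : ℤ) * (2 * a * n + b)) +
      ((((eqv.symm p).1 : ℕ) + 1 : ℕ) : ℤ) ^ 2 * (W' * ((a * (n : ℤ) ^ 2 + b * n + c) / R'))) /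
      ((dd W (x (eqv.symm p).2) (y (eqv.symm p).2) (eqv.symm p).1 : ℕ) : ℤ)).toNat, ?_⟩
  intro G hG hZG hGZ hqG
  have hY2 : 2 ≤ Y := by omega
  have hE1 : 1 ≤ Y ^ Bd := Nat.one_le_pow _ _ (by omega)
  have hEZ : Y ^ Bd ≤ Z := by
    refine le_trans ?_ hYZ
    exact Nat.pow_le_pow_right (by omega) (by omega)
  have hYE : Y ≤ Y ^ Bd := by
    calc Y = Y ^ 1 := (pow_one Y).symm
      _ ≤ Y ^ Bd := Nat.pow_le_pow_right (by omega) hBd
  have hWG : (W : ℤ) ∣ (G : ℤ) - 1 := by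
    refine dvd_trans ?_ hqG
    exact_mod_cast Dvd.intro_left (4 * D.natAbs) rfl
  have hDG : ((4 * D.natAbs : ℕ) : ℤ) ∣ (G : ℤ) - 1 := by
    refine dvd_trans ?_ hqG
    exact Int.natCast_dvd_natCast.2 (Dvd.intro _ rfl)
  -- primes of the determinants
  have hddq : ∀ z β, ∀ q : ℕ, q.Prime → q ∣ dd W (x z) (y z) (u z β) →
      ((4 * D.natAbs : ℕ) : ℤ) ∣ (q : ℤ) - 1 ∧ Y < q ∧ ∀ ν ν' : ℤ,
      (q : ℤ) ∣ a * ν ^ 2 + b * ν + c → (q : ℤ) ∣ a * ν' ^ 2 + b * ν' + c →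
      ¬ (q : ℤ) ∣ ν - ν' → Φ q ν + Φ q ν' = γ := by
    intro z β q hq hqd
    obtain ⟨h1, h2⟩ := (hdd z β).2.2 q hq hqd
    have h3 := mod_one_dvd h1
    refine ⟨dvd_trans (Int.natCast_dvd_natCast.2 (Dvd.intro _ rfl)) h3, h2, hΦγ q hq ?_ h2 ?_⟩
    · have h4 : (q₀ : ℤ) ∣ (q : ℤ) - (1 : ℕ) :=
        dvd_trans (Int.natCast_dvd_natCast.2 (Dvd.intro_left _ rfl)) (by exact_mod_cast h3)
      exact ((Nat.modEq_iff_dvd).2 h4).symm
    · have h5 := Nat.le_of_dvd (dd_pos hW0 (hxy z).1 (hxy z).2.2.2.2 _) hqd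
      have h6 : dd W (x z) (y z) (u z β) ≤ y z := Nat.sub_le _ _
      calc q ≤ Y ^ Bd := h5.trans (h6.trans (hxy z).2.1)
        _ ≤ Y ^ (Bd + 1) := Nat.pow_le_pow_right (by omega) (by omega)
  obtain ⟨m, H, hmlo, hmhi, hH, hH0, hRr, hCr, hfam⟩ := hCs r (Fin r → Γ)
    (by rw [← hN]; omega) Y hY2 (by omega) x y (fun i z => ∃ β, u z β = i)
    (fun z => ⟨(hxy z).1, (hxy z).2.2.1, (hxy z).2.2.2.1, (hxy z).2.2.2.2⟩)
    (by
      rintro i z ⟨β, rfl⟩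
      refine ⟨fun q hq hqd => ((hdd z β).2.2 q hq hqd).2, ?_⟩
      exact sq_squarefree D hD Lp _ (hdd z β).1 fun q hq hqd => (hddq z β q hq hqd).1)
    (by
      rintro i z i' z' ⟨β, rfl⟩ ⟨β', rfl⟩ hne
      exact hcop z β z' β' hne)
    (Y ^ Bd) hE1 (fun z => (hxy z).2.1) G hG (by omega) (by omega)
    (by
      rw [Int.abs_eq_natAbs]
      exact_mod_cast (by omega : D.natAbs ≤ G)) hWG
    (by
      obtain ⟨ρ, hρ⟩ := sq_prime D hD G hG hDG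
      refine ⟨Lp * ρ, ?_⟩
      have e : ((Lp : ℤ) * ρ) ^ 2 - (Lp : ℤ) ^ 2 * D = (Lp : ℤ) ^ 2 * (ρ ^ 2 - D) := by ring
      rw [e]
      exact hρ.mul_left _)
  have hG0 : (0 : ℤ) < G := by exact_mod_cast hG.pos
  have hWz0 : (0 : ℤ) < W := by exact_mod_cast hW0
  have hW'z0 : (0 : ℤ) < W' := by exact_mod_cast hW'0
  have hW₁z0 : (0 : ℤ) < W₁ := by exact_mod_cast hW₁0
  have hm0 : 0 < m := lt_of_lt_of_le (by positivity) hmlo
  have hx0 : ∀ z, (0 : ℤ) < x z := fun z => by exact_mod_cast (hxy z).1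
  have hRpos : ∀ i : Fin r,
      0 < (G : ℤ) + 2 * m * ((i : ℕ) + 1 : ℕ) + W' * H * ((i : ℕ) + 1 : ℕ) ^ 2 := by
    intro i
    have : (0 : ℤ) < (((i : ℕ) + 1 : ℕ) : ℤ) := by positivity
    positivity
  have hy0 : ∀ z, (0 : ℤ) < y z := by
    intro z
    have h1 := (hxy z).2.2.2.2
    have h2 : 0 < 2 * W * r * x z := by
      have := (hxy z).1
      positivity
    exact_mod_cast lt_of_lt_of_le h2 h1
  have hCpos : ∀ z, 0 < (W₁ : ℤ) * (G * W * (x z) ^ 2 + 2 * m * (x z) * (y z)) + H * (y z) ^ 2 := by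
    intro z
    have := hx0 z
    have := hy0 z
    positivity
  -- the roots
  have hsm : ∀ p : ℕ, p.Prime → (p : ℤ) ∣ 2 * a * Lp → p ≤ Y := by
    intro p hp hdvd
    have hpp : Prime (p : ℤ) := Nat.prime_iff_prime_int.1 hp
    rcases hpp.dvd_or_dvd hdvd with h | h
    · rcases hpp.dvd_or_dvd h with h | h
      · have := Int.le_of_dvd (by norm_num) h
        omega
      · have := Int.le_of_dvd ha h
        omega
    · have := (hLpd p hp).1 (Int.natCast_dvd_natCast.1 h)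
      omega
  have hWz : (W : ℤ) = W' * W₁ := by rw [hW]; push_cast; ring
  have hαβ : ∀ z, ∃ α β : ℤ, α * y z - β * (W * x z) = 1 := by
    intro z
    have h1 : IsCoprime (W : ℤ) (y z : ℤ) := by
      obtain ⟨e, he⟩ := dvd_sub_one (hxy z).2.2.1
      exact ⟨-e, 1, by linarith⟩
    have h2 : IsCoprime (x z : ℤ) (y z : ℤ) := Nat.isCoprime_iff_coprime.2 (hxy z).2.2.2.1
    obtain ⟨u, v, huv⟩ := h1.mul_left h2
    exact ⟨v, -u, by linarith⟩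
  choose αc βc hαβ using hαβ
  obtain ⟨cr, hcr⟩ : ∃ cr : (Fin r → Γ) → ℤ, ∀ z, cr z = G * αc z * (W * x z) +
      m * (αc z * y z + βc z * (W * x z)) + W' * H * βc z * y z := ⟨_, fun _ => rfl⟩
  have hνr := fun i : Fin r => root_of_sq a b c Lp D
    (m + W' * H * ((i : ℕ) + 1 : ℕ)) _ hDdef
    (Pool.Agent.TH423.DS.isCoprime_of_rough (hRr i) hsm) (rowRoot Lp D G m (W' * H) _ hH)
  choose νr hνr1 hνr2 using hνr
  have hνc := fun z : Fin r → Γ => root_of_sq a b c Lp D (cr z) _ hDdef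
    (Pool.Agent.TH423.DS.isCoprime_of_rough (hCr z) hsm) (by
      rw [hcr]
      exact colRoot Lp D W' W₁ W G m H (x z) (y z) (αc z) (βc z) hWz hH (hαβ z))
  choose νc hνc1 hνc2 using hνc
  -- the colours
  obtain ⟨z, hz⟩ : ∃ z : Fin r → Γ, ∀ i, z i =
      Φ ((G : ℤ) + 2 * m * ((i : ℕ) + 1 : ℕ) + W' * H * ((i : ℕ) + 1 : ℕ) ^ 2).natAbs (νr i) :=
    ⟨_, fun _ => rfl⟩
  obtain ⟨β, hβ⟩ : ∃ β : Γ, β =
      Φ ((W₁ : ℤ) * (G * W * (x z) ^ 2 + 2 * m * (x z) * (y z)) + H * (y z) ^ 2).natAbs (νc z) :=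
    ⟨_, rfl⟩
  obtain ⟨n, R', C', hR', hn, hfn, hC', hdG, hgr⟩ := hfam (u z β) z ⟨β, rfl⟩
  have hd0 : 0 < dd W (x z) (y z) (u z β) := dd_pos hW0 (hxy z).1 (hxy z).2.2.2.2 _
  have hd0' : (0 : ℤ) < dd W (x z) (y z) (u z β) := by exact_mod_cast hd0
  obtain ⟨hroot1, hroot2, hroot3⟩ := algRoot W' W₁ W G m H (x z) (y z)
    (((u z β : ℕ) + 1 : ℕ) : ℤ) (dd W (x z) (y z) (u z β) : ℕ) R' C'
    ((Lp : ℤ) * (2 * a * n + b)) (αc z) (βc z) (cr z) hWz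
    (by rw [dd_cast (hxy z).2.2.2.2]; push_cast; ring) hd0'.ne' hR' hC' hn (hαβ z) (hcr z)
  have hRr' := hRr (u z β)
  have hCr' := hCr z
  have hνr1' := hνr1 (u z β)
  have hνr2' := hνr2 (u z β)
  have hνc1' := hνc1 z
  have hνc2' := hνc2 z
  rw [hR'] at hνr1' hνr2' hRr'
  rw [hC'] at hνc1' hνc2' hCr'
  have hR'r : Rough Y R' := by
    rw [mul_comm] at hRr'
    exact Rough.of_mul_left hRr'
  have hC'r : Rough Y C' := by
    rw [mul_comm] at hCr'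
    exact Rough.of_mul_left hCr'
  have hnr : R' ∣ n - νr (u z β) := by
    have h1 : R' ∣ (2 * a * Lp) * (n - νr (u z β)) := by
      have e : (2 * a * Lp) * (n - νr (u z β)) = ((Lp : ℤ) * (2 * a * n + b) -
        (m + W' * H * ((u z β : ℕ) + 1 : ℕ))) - ((Lp : ℤ) * (2 * a * νr (u z β) + b) -
        (m + W' * H * ((u z β : ℕ) + 1 : ℕ))) := by ring
      rw [e]
      exact dvd_sub hroot1 ((Dvd.intro_left _ rfl).trans hνr1')
    exact (Pool.Agent.TH423.DS.isCoprime_of_rough hR'r hsm).dvd_of_dvd_mul_left h1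
  have hnc : C' ∣ n - νc z := by
    have h1 : C' ∣ (2 * a * Lp) * (n - νc z) := by
      have e : (2 * a * Lp) * (n - νc z) = ((Lp : ℤ) * (2 * a * n + b) - cr z) -
        ((Lp : ℤ) * (2 * a * νc z + b) - cr z) := by ring
      rw [e]
      exact dvd_sub hroot2 ((Dvd.intro_left _ rfl).trans hνc1')
    exact (Pool.Agent.TH423.DS.isCoprime_of_rough hC'r hsm).dvd_of_dvd_mul_left h1
  have hΦd : Φ (dd W (x z) (y z) (u z β)) (νr (u z β)) + Φ (dd W (x z) (y z) (u z β)) (νc z) =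
      (jT (z (u z β) + β)) • γ := by
    rw [Phi_card Φ (fun ν => a * ν ^ 2 + b * ν + c) hΦ γ _ _ _ hd0.ne' (fun q hq hqd => ?_)
      ((Dvd.intro _ rfl).trans hνr2') ((Dvd.intro _ rfl).trans hνc2')]
    · have h1 := (hdd z β).2.1
      have h2 := (ZMod.natCast_eq_natCast_iff _ _ _).1 h1
      exact nsmul_eq_nsmul_iff_modEq.2 (h2.of_dvd (addOrderOf_dvd_card))
    · obtain ⟨-, hYq, hγ⟩ := hddq z β q hq hqd
      have hqd' : (q : ℤ) ∣ ((dd W (x z) (y z) (u z β) : ℕ) : ℤ) :=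
        Int.natCast_dvd_natCast.2 hqd
      have hq1 : (q : ℤ) ∣ a * νr (u z β) ^ 2 + b * νr (u z β) + c :=
        hqd'.trans ((Dvd.intro _ rfl).trans hνr2')
      have hq2 : (q : ℤ) ∣ a * νc z ^ 2 + b * νc z + c :=
        hqd'.trans ((Dvd.intro _ rfl).trans hνc2')
      refine hγ _ _ hq1 hq2 fun hq3 => ?_
      have hqp : Prime (q : ℤ) := Nat.prime_iff_prime_int.1 hq
      -- the two square roots are opposite
      have h1 : (q : ℤ) ∣ (Lp : ℤ) * (2 * a * νr (u z β) + b) + Lp * (2 * a * νc z + b) := by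
        have e : (Lp : ℤ) * (2 * a * νr (u z β) + b) + Lp * (2 * a * νc z + b) =
          ((Lp : ℤ) * (2 * a * νr (u z β) + b) - (m + W' * H * ((u z β : ℕ) + 1 : ℕ))) +
          ((Lp : ℤ) * (2 * a * νc z + b) - cr z) +
          ((m + W' * H * ((u z β : ℕ) + 1 : ℕ)) + cr z) := by ring
        rw [e]
        exact dvd_add (dvd_add (hqd'.trans ((Dvd.intro _ rfl).trans hνr1'))
          (hqd'.trans ((Dvd.intro _ rfl).trans hνc1'))) (hqd'.trans hroot3)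
      have h2 : (q : ℤ) ∣ (2 * Lp) * (2 * a * νr (u z β) + b) := by
        have e : (2 * (Lp : ℤ)) * (2 * a * νr (u z β) + b) =
          ((Lp : ℤ) * (2 * a * νr (u z β) + b) + Lp * (2 * a * νc z + b)) +
          (νr (u z β) - νc z) * (2 * a * Lp) := by ring
        rw [e]
        exact dvd_add h1 (hq3.mul_right _)
      have h3 : ¬ (q : ℤ) ∣ 2 * Lp := by
        intro h
        have := hsm q hq (by
          have e : 2 * a * (Lp : ℤ) = (2 * Lp) * a := by ring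
          rw [e]
          exact h.mul_right _)
        omega
      have h4 : (q : ℤ) ∣ 2 * a * νr (u z β) + b := (hqp.dvd_or_dvd h2).resolve_left h3
      have h5 : (q : ℤ) ∣ D := by
        have e : D = (2 * a * νr (u z β) + b) * (2 * a * νr (u z β) + b) -
          (a * νr (u z β) ^ 2 + b * νr (u z β) + c) * (4 * a) := by rw [hDdef]; ring
        rw [e]
        exact dvd_sub (h4.mul_right _) (hq1.mul_right _)
      have h6 : q ∣ D.natAbs := Int.natCast_dvd.1 h5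
      have := Nat.le_of_dvd hDn h6
      omega
  obtain ⟨d, hd⟩ : ∃ d : ℕ, d = dd W (x z) (y z) (u z β) := ⟨_, rfl⟩
  rw [← hd] at hR' hC' hdG hΦd hd0 hd0' hνr1' hνr2' hνc1' hνc2'
  have hR'0 : 0 < R' := by
    have := hRpos (u z β)
    rw [hR'] at this
    exact (mul_pos_iff_of_pos_left hd0').1 this
  have hC'0 : 0 < C' := by
    have := hCpos z
    rw [hC'] at this
    exact (mul_pos_iff_of_pos_left hd0').1 this
  lift R' to ℕ using hR'0.le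
  lift C' to ℕ using hC'0.le
  have hR'n : R' ≠ 0 := by rintro rfl; simp at hR'0
  have hC'n : C' ≠ 0 := by rintro rfl; simp at hC'0
  have hFn : Φ (R' * C') n ∈ T := by
    have h1 : z (u z β) = Φ d (νr (u z β)) + Φ R' n := by
      rw [hz, hR', ← Nat.cast_mul, Int.natAbs_natCast,
        hΦ _ _ hd0.ne' hR'n _ (by push_cast; exact hνr2'),
        hΦ' R' hR'n n (νr (u z β)) (by rw [hfn]; exact Dvd.intro _ rfl) hnr]
    have h2 : β = Φ d (νc z) + Φ C' n := by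
      nth_rewrite 1 [hβ]
      rw [hC', ← Nat.cast_mul, Int.natAbs_natCast,
        hΦ _ _ hd0.ne' hC'n _ (by push_cast; exact hνc2'),
        hΦ' C' hC'n n (νc z) (by rw [hfn]; exact Dvd.intro_left _ rfl) hnc]
    have h3 := hjT (z (u z β) + β)
    have h4 : z (u z β) + β - (jT (z (u z β) + β)) • γ = Φ (R' * C') n := by
      rw [hΦ _ _ hR'n hC'n n (by rw [hfn]; push_cast; exact dvd_rfl), ← hΦd]
      exact add_sub_helper h1 h2
    rwa [h4] at h3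
  -- sizes
  have hh1 : (1 : ℤ) ≤ ((u z β : ℕ) + 1 : ℕ) := by exact_mod_cast Nat.succ_pos _
  have hhr : (((u z β : ℕ) + 1 : ℕ) : ℤ) ≤ Y := by
    have := (u z β).2
    exact_mod_cast (by omega : (u z β : ℕ) + 1 ≤ Y)
  have hbG : Lp * |b| < (W : ℤ) * G := by
    have h1 : (Lp : ℤ) ≤ W := by
      have : Lp ≤ W := by
        rw [hW, hW₁]
        calc Lp = 1 * (1 * Lp) := by ring
          _ ≤ W' * (W₀ * Lp) := Nat.mul_le_mul hW'0 (Nat.mul_le_mul_right _ hW₀)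
      exact_mod_cast this
    have h2 : |b| < G := by
      rw [Int.abs_eq_natAbs]
      exact_mod_cast (by omega : b.natAbs < G)
    calc (Lp : ℤ) * |b| < Lp * G := mul_lt_mul_of_pos_left h2 hLp0'
      _ ≤ W * G := mul_le_mul_of_nonneg_right h1 hG0.le
  have hn0 : 0 < n := by
    have h1 : m ≤ (Lp : ℤ) * (2 * a * n + b) := by
      rw [hn]
      have : (0 : ℤ) < W * (x z) * R' := by
        have := hx0 z
        positivity
      have : (0 : ℤ) < W' * H * ((u z β : ℕ) + 1 : ℕ) := by positivity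
      linarith
    have h2 : (Lp : ℤ) * b ≤ Lp * |b| := mul_le_mul_of_nonneg_left (le_abs_self b) hLp0'.le
    have h3 : 0 < ((Lp : ℤ) * (2 * a)) * n := by
      have : ((Lp : ℤ) * (2 * a)) * n = (Lp : ℤ) * (2 * a * n + b) - Lp * b := by ring
      linarith
    exact (mul_pos_iff_of_pos_left (by positivity)).1 h3
  obtain ⟨A, hA⟩ : ∃ A : ℤ, A = (Y : ℤ) ^ (Cs + 1 + Bd * (r * N)) := ⟨_, rfl⟩
  have hY1 : (1 : ℤ) ≤ Y := by exact_mod_cast (by omega : 1 ≤ Y)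
  have hA1 : 1 ≤ A := by rw [hA]; exact one_le_pow₀ hY1
  have hmA : m ≤ A * G := by
    refine hmhi.trans ?_
    rw [← hN]
    have h1 : (Y : ℤ) ^ Cs + 2 ≤ 3 * (Y : ℤ) ^ Cs := by
      have : (1 : ℤ) ≤ (Y : ℤ) ^ Cs := one_le_pow₀ hY1
      linarith
    have h2 : 3 * (W : ℤ) ≤ Y := by exact_mod_cast (by omega : 3 * W ≤ Y)
    have h3 : (((Y ^ Bd : ℕ) : ℤ)) ^ (r * N) = (Y : ℤ) ^ (Bd * (r * N)) := by
      push_cast
      rw [← pow_mul]
    rw [h3]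
    calc ((Y : ℤ) ^ Cs + 2) * (W * G * (Y : ℤ) ^ (Bd * (r * N)))
        ≤ (3 * (Y : ℤ) ^ Cs) * (W * G * (Y : ℤ) ^ (Bd * (r * N))) :=
          mul_le_mul_of_nonneg_right h1 (by positivity)
      _ = (3 * W) * ((Y : ℤ) ^ Cs * (Y : ℤ) ^ (Bd * (r * N)) * G) := by ring
      _ ≤ Y * ((Y : ℤ) ^ Cs * (Y : ℤ) ^ (Bd * (r * N)) * G) :=
          mul_le_mul_of_nonneg_right h2 (by positivity)
      _ = A * G := by rw [hA]; ring
  have hWA : (W : ℤ) * G ≤ A * G := hmlo.trans hmA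
  have hsize : n ≤ 24 * ((Y : ℤ) ^ Bd) * A ^ 2 * (((u z β : ℕ) + 1 : ℕ) : ℤ) ^ 2 * Z := by
    refine size_bound A ((Y : ℤ) ^ Bd) (((u z β : ℕ) + 1 : ℕ) : ℤ) G Z m (W' * H) R'
      (W * (x z)) a b Lp n hA1 (by exact_mod_cast hE1) hh1 hG0 (by exact_mod_cast hGZ) hm0 hmA
      (by positivity) ?_ ?_ hR'0 ?_ ha hLp0' hn (by linarith) hn0
    · have h1 : (W' : ℤ) * H * G = m ^ 2 - (Lp : ℤ) ^ 2 * D := by rw [hH]; ring
      rw [h1]
      have h2 : -((Lp : ℤ) ^ 2 * D) ≤ m := by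
        have h4 : (Lp : ℤ) ^ 2 ≤ W := by
          have h5 : (Lp : ℤ) ^ 2 ≤ W' := by
            rw [hW']
            have : (1 : ℤ) ≤ a := ha
            nlinarith [sq_nonneg (Lp : ℤ)]
          have h6 : (W' : ℤ) ≤ W := by
            have : W' ≤ W := by rw [hW]; exact Nat.le_mul_of_pos_right _ hW₁0
            exact_mod_cast this
          linarith
        have h7 : -D ≤ G := by
          have h8 : |D| ≤ G := by
            rw [Int.abs_eq_natAbs]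
            exact_mod_cast (by omega : D.natAbs ≤ G)
          have := neg_abs_le D
          linarith
        calc -((Lp : ℤ) ^ 2 * D) = (Lp : ℤ) ^ 2 * (-D) := by ring
          _ ≤ (Lp : ℤ) ^ 2 * G := mul_le_mul_of_nonneg_left h7 (sq_nonneg _)
          _ ≤ W * G := mul_le_mul_of_nonneg_right h4 hG0.le
          _ ≤ m := hmlo
      have h3 : m ≤ m ^ 2 := le_self_pow₀ (Int.add_one_le_iff.2 hm0) two_ne_zero
      linarith
    · have h1 := (hxy z).2.2.2.2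
      have h2 := (hxy z).2.1
      have h3 : W * x z ≤ Y ^ Bd := by
        refine le_trans ?_ (h1.trans h2)
        calc W * x z = 1 * (W * x z) := by ring
          _ ≤ (2 * r) * (W * x z) := Nat.mul_le_mul_right _ (by omega)
          _ = 2 * W * r * x z := by ring
      exact_mod_cast h3
    · rw [hR']
      have : (1 : ℤ) ≤ d := hd0'
      nlinarith
  have hsizeX : n ≤ X := by
    have h1 : (24 : ℤ) ≤ Y := by exact_mod_cast (by omega : 24 ≤ Y)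
    have h2 : ((((u z β : ℕ) + 1 : ℕ) : ℤ)) ^ 2 ≤ (Y : ℤ) ^ 2 :=
      pow_le_pow_left₀ (by linarith) hhr 2
    have h3 : ((Y ^ (Bd + 2 * (Cs + 1 + Bd * (r * N)) + 3) * Z : ℕ) : ℤ) ≤ X := by
      exact_mod_cast hZX
    refine hsize.trans (le_trans ?_ h3)
    push_cast
    calc 24 * ((Y : ℤ) ^ Bd) * A ^ 2 * (((u z β : ℕ) : ℤ) + 1) ^ 2 * Z
        = 24 * (((((u z β : ℕ) + 1 : ℕ) : ℤ)) ^ 2 * ((Y : ℤ) ^ Bd * A ^ 2 * Z)) := by
          push_cast; ring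
      _ ≤ Y * ((Y : ℤ) ^ 2 * ((Y : ℤ) ^ Bd * A ^ 2 * Z)) := by
          apply mul_le_mul h1 _ (by positivity) (by positivity)
          exact mul_le_mul_of_nonneg_right h2 (by positivity)
      _ = (Y : ℤ) ^ (Bd + 2 * (Cs + 1 + Bd * (r * N)) + 3) * Z := by
          rw [hA]; ring
  lift n to ℕ using hn0.le
  have hval : a * (n : ℤ) ^ 2 + b * n + c = ((R' * C' : ℕ) : ℤ) := by
    rw [hfn]; push_cast; ring
  have hpos : 0 < R' * C' := Nat.pos_of_ne_zero (mul_ne_zero hR'n hC'n)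
  refine ⟨n, ⟨by omega, by exact_mod_cast hsizeX, ?_, ?_, hgr, ?_⟩, R', ?_,
    eqv (u z β, z), ?_⟩
  · rw [hval]; exact_mod_cast hpos
  · rw [hval]
    push_cast
    exact Rough.mul hR'r hC'r
  · rw [hval, Int.natAbs_natCast]; exact hFn
  · rw [hval, Int.natAbs_natCast]; exact Dvd.intro _ rfl
  · simp only [Equiv.symm_apply_apply]
    have h1 : (a * (n : ℤ) ^ 2 + b * n + c) / (R' : ℤ) = C' := by
      rw [hfn]
      exact Int.mul_ediv_cancel_left _ (by exact_mod_cast hR'n)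
    rw [h1, ← hd]
    have h2 := hdG
    rw [← h2, Int.mul_ediv_cancel_left _ hd0'.ne', Int.toNat_natCast]

end Pool.Agent.N576.QA
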