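import Pool.Agent.N576.QA.Alg
import Pool.Agent.TH423.PO.ST1

/-!
Existence of a rough member of the family (helper576).
-/

set_option autoImplicit false

open Finset Polynomial

namespace Pool.Agent.N576.QA

open Pool.Agent.H661R3.OP (Rough)
open Pool.Agent.TH423.SH (dd)
open Pool.Agent.TH423.PO.ST1A (dd_pos dd_cast dvd_sub_one dd_cop)
open Pool.Agent.TH423.DS (sieve_poly zmod_dvd)

theorem int_not_dvd_prime {l G Y : ℕ} (hl : l.Prime) (hG : G.Prime) (hlY : l ≤ Y) (hYG : Y < G) :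
    ¬ (l : ℤ) ∣ (G : ℤ) := by
  intro h
  have h1 : l ∣ G := Int.natCast_dvd_natCast.1 h
  have h2 : l = G := (Nat.prime_dvd_prime_iff_eq hl hG).1 h1
  omega

theorem family (a b c : ℤ) (ha : 0 < a) {s : ℕ} (g : Fin s → ℤ[X]) (k : ℕ) (hk1 : 1 ≤ k)
    (Lp : ℕ) (hLp : 0 < Lp) (hLpd : ∀ p : ℕ, p.Prime → (p ∣ Lp ↔ p ≤ 2 * k))
    (hak : a ≤ k) (W₁ : ℕ) (hW₁ : 0 < W₁) (hLW : Lp ∣ W₁)
    (hWk : ∀ p : ℕ, p.Prime → p ∣ W₁ → p ≤ 2 * k) (nst : ℤ)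
    (hf : ∀ p : ℕ, p.Prime → p ≤ 2 * k → ¬ (p : ℤ) ∣ a * nst ^ 2 + b * nst + c)
    (hg : ∀ j, ∀ p : ℕ, p.Prime → p ≤ 2 * k → ¬ (p : ℤ) ∣ (g j).eval nst)
    (hgne : ∀ j, ∀ p : ℕ, p.Prime → ∃ n : ℤ, ¬ (p : ℤ) ∣ (g j).eval n)
    (D : ℤ) (hD : D = b ^ 2 - 4 * a * c)
    (W' W : ℕ) (hW' : (W' : ℤ) = a * (2 * (Lp : ℤ)) ^ 2) (hW : W = W' * W₁) :
    ∃ C : ℕ, ∀ (r : ℕ) (Z : Type) [Fintype Z],
    2 * r + 2 * Fintype.card Z + r * Fintype.card Z * (2 * ∑ j, (g j).natDegree) ≤ k →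
    ∀ Y : ℕ, 2 ≤ Y → 2 * k ≤ Y → ∀ (x y : Z → ℕ) (U : Fin r → Z → Prop),
    (∀ z, 0 < x z ∧ y z % W = 1 % W ∧ (x z).Coprime (y z) ∧ 2 * W * r * x z ≤ y z) →
    (∀ i z, U i z → (∀ q : ℕ, q.Prime → q ∣ dd W (x z) (y z) i → Y < q) ∧
      ∃ ρ : ℤ, ((dd W (x z) (y z) i : ℕ) : ℤ) ∣ ρ ^ 2 - (Lp : ℤ) ^ 2 * D) →
    (∀ (i : Fin r) z (i' : Fin r) z', U i z → U i' z' → (i, z) ≠ (i', z') →
      (dd W (x z) (y z) i).Coprime (dd W (x z') (y z') i')) →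
    ∀ E : ℕ, 1 ≤ E → (∀ z, y z ≤ E) → ∀ G : ℕ, G.Prime → Y < G → E < G → |D| ≤ G →
    (W : ℤ) ∣ (G : ℤ) - 1 → (∃ ρ : ℤ, (G : ℤ) ∣ ρ ^ 2 - (Lp : ℤ) ^ 2 * D) →
    ∃ m H : ℤ, (W : ℤ) * G ≤ m ∧
      m ≤ ((Y : ℤ) ^ C + 2) * (W * G * (E : ℤ) ^ (r * Fintype.card Z)) ∧
      m ^ 2 - (Lp : ℤ) ^ 2 * D = G * (W' * H) ∧ 0 < H ∧
      (∀ i : Fin r, Rough Y (G + 2 * m * ((i : ℕ) + 1 : ℕ) + W' * H * ((i : ℕ) + 1 : ℕ) ^ 2)) ∧
      (∀ z, Rough Y (W₁ * (G * W * (x z) ^ 2 + 2 * m * (x z) * (y z)) + H * (y z) ^ 2)) ∧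
      ∀ (i : Fin r) z, U i z → ∃ n R' C' : ℤ,
        G + 2 * m * ((i : ℕ) + 1 : ℕ) + W' * H * ((i : ℕ) + 1 : ℕ) ^ 2 =
          ((dd W (x z) (y z) i : ℕ) : ℤ) * R' ∧
        (Lp : ℤ) * (2 * a * n + b) = W * (x z) * R' + m + W' * H * ((i : ℕ) + 1 : ℕ) ∧
        a * n ^ 2 + b * n + c = R' * C' ∧
        W₁ * (G * W * (x z) ^ 2 + 2 * m * (x z) * (y z)) + H * (y z) ^ 2 =
          ((dd W (x z) (y z) i : ℕ) : ℤ) * C' ∧
        ((dd W (x z) (y z) i : ℕ) : ℤ) * G = (y z) ^ 2 * R' -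
          2 * (y z) * ((i : ℕ) + 1 : ℕ) * ((Lp : ℤ) * (2 * a * n + b)) +
          ((i : ℕ) + 1 : ℕ) ^ 2 * (W' * C') ∧
        ∀ j, Rough Y ((g j).eval n) := by
  classical
  obtain ⟨Cs, hCs⟩ := sieve_poly k hk1
  refine ⟨Cs, ?_⟩
  intro r Z _ hk Y hY hkY x y U hxy hU hcop E hE1 hyE G hG hYG hEG hDG hWG ⟨ρG, hρG⟩
  have hLp' : (0 : ℤ) < Lp := by exact_mod_cast hLp
  have hW'0 : (0 : ℤ) < W' := by rw [hW']; positivity
  have hW'n : 0 < W' := by exact_mod_cast hW'0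
  have hW0 : 0 < W := by rw [hW]; positivity
  have hWz : (W : ℤ) = W' * W₁ := by rw [hW]; push_cast; ring
  have hG0 : (0 : ℤ) < G := by exact_mod_cast hG.pos
  have hrk : 2 * r ≤ k := by
    have : 0 ≤ 2 * Fintype.card Z + r * Fintype.card Z * (2 * ∑ j, (g j).natDegree) :=
      Nat.zero_le _
    omega
  -- primes dividing `W` are small
  have hW'p : ∀ p : ℕ, p.Prime → (p : ℤ) ∣ (W' : ℤ) → p ≤ 2 * k := by
    intro p hp hdvd
    rw [hW'] at hdvd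
    have hpp : Prime (p : ℤ) := Nat.prime_iff_prime_int.1 hp
    rcases hpp.dvd_or_dvd hdvd with h | h
    · have := Int.le_of_dvd ha h
      omega
    · have h2 := hpp.dvd_of_dvd_pow h
      rcases hpp.dvd_or_dvd h2 with h | h
      · have := Int.le_of_dvd (by norm_num) h
        omega
      · exact (hLpd p hp).1 (Int.natCast_dvd_natCast.1 h)
  have hWp : ∀ p : ℕ, p.Prime → (p : ℤ) ∣ (W : ℤ) → p ≤ 2 * k := by
    intro p hp hdvd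
    rw [hWz] at hdvd
    rcases (Nat.prime_iff_prime_int.1 hp).dvd_or_dvd hdvd with h | h
    · exact hW'p p hp h
    · exact hWk p hp (Int.natCast_dvd_natCast.1 h)
  -- the determinants
  obtain ⟨d, hd⟩ : ∃ d : Fin r → Z → ℤ, ∀ i z, d i z = ((dd W (x z) (y z) i : ℕ) : ℤ) :=
    ⟨fun i z => ((dd W (x z) (y z) i : ℕ) : ℤ), fun _ _ => rfl⟩
  have hdy : ∀ i z, (y z : ℤ) = d i z + ((i : ℕ) + 1 : ℕ) * W * x z := by
    intro i z
    rw [hd, dd_cast (hxy z).2.2.2 i]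
    push_cast
    ring
  have hdpos : ∀ i z, 0 < d i z := by
    intro i z
    rw [hd]
    exact_mod_cast dd_pos hW0 (hxy z).1 (hxy z).2.2.2 i
  have hdE : ∀ i z, d i z ≤ E := by
    intro i z
    have h1 := hdy i z
    have h2 : (0 : ℤ) ≤ ((i : ℕ) + 1 : ℕ) * W * x z := by positivity
    have h3 : (y z : ℤ) ≤ E := by exact_mod_cast hyE z
    linarith
  have hWd : ∀ i z, IsCoprime (W : ℤ) (d i z) := by
    intro i z
    rw [hd]
    exact dd_cop (hxy z).2.2.2 (hxy z).2.1 i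
  have hdr : ∀ i z, U i z → ∀ q : ℕ, q.Prime → (q : ℤ) ∣ d i z → Y < q := by
    intro i z h q hq hqd
    rw [hd] at hqd
    exact (hU i z h).1 q hq (Int.natCast_dvd_natCast.1 hqd)
  have hGd : ∀ i z, IsCoprime (G : ℤ) (d i z) := by
    intro i z
    have h1 : ¬ G ∣ dd W (x z) (y z) i := by
      intro h
      have h2 := Nat.le_of_dvd (dd_pos hW0 (hxy z).1 (hxy z).2.2.2 i) h
      have h3 := hdE i z
      rw [hd] at h3
      have h4 : dd W (x z) (y z) i ≤ E := by exact_mod_cast h3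
      omega
    rw [hd]
    exact Nat.isCoprime_iff_coprime.2 ((Nat.Prime.coprime_iff_not_dvd hG).2 h1)
  have hWGc : IsCoprime (W : ℤ) (G : ℤ) := by
    obtain ⟨q, hq⟩ := hWG
    exact ⟨-q, 1, by linarith⟩
  have hW'G : IsCoprime (G : ℤ) (W' : ℤ) := by
    rw [hWz] at hWGc
    exact (IsCoprime.of_mul_left_left hWGc).symm
  -- residues
  have hres : ∀ p : {p : Fin r × Z // U p.1 p.2}, ∃ sp ρ : ℤ,
      d p.1.1 p.1.2 ∣ ρ ^ 2 - (Lp : ℤ) ^ 2 * D ∧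
      d p.1.1 p.1.2 ∣ (((p.1.1 : ℕ) + 1 : ℕ) : ℤ) * sp -
        (ρ * (((p.1.1 : ℕ) + 1 : ℕ) : ℤ) - G) := by
    rintro ⟨⟨i, z⟩, hp⟩
    obtain ⟨ρ, hρ⟩ := (hU i z hp).2
    rw [← hd] at hρ
    have hc : IsCoprime (((i : ℕ) + 1 : ℕ) : ℤ) (d i z) := by
      rw [hd]
      refine Nat.isCoprime_iff_coprime.2 (Nat.coprime_of_dvd fun q hq h1 h2 => ?_)
      have h3 := Nat.le_of_dvd (Nat.succ_pos _) h1
      have h4 := (hU i z hp).1 q hq h2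
      have h5 := i.2
      omega
    obtain ⟨α, β, hαβ⟩ := hc
    refine ⟨α * (ρ * (((i : ℕ) + 1 : ℕ) : ℤ) - G), ρ, hρ, ⟨-β *
      (ρ * (((i : ℕ) + 1 : ℕ) : ℤ) - G), ?_⟩⟩
    linear_combination (ρ * (((i : ℕ) + 1 : ℕ) : ℤ) - G) * hαβ
  choose sp ρp hρp hsp using hres
  obtain ⟨m0, hm0lo, hm0hi, hm0W, hm0G, hm0d⟩ := crt3 (κ := {p : Fin r × Z // U p.1 p.2})
    (W : ℤ) (G : ℤ) (fun p => d p.1.1 p.1.2) hWGc (fun p => hWd _ _) (fun p => hGd _ _)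
    (by
      intro p q hpq
      have h1 := hcop p.1.1 p.1.2 q.1.1 q.1.2 p.2 q.2 (by
        intro h'
        exact hpq (Subtype.ext h'))
      show IsCoprime (d p.1.1 p.1.2) (d q.1.1 q.1.2)
      rw [hd, hd]
      exact Nat.isCoprime_iff_coprime.2 h1)
    (by exact_mod_cast hW0) hG0 (fun p => hdpos _ _)
    ((Lp : ℤ) * (2 * a * nst + b)) ρG sp
  obtain ⟨Pd, hPd⟩ : ∃ Pd : ℤ, Pd = ∏ p : {p : Fin r × Z // U p.1 p.2}, d p.1.1 p.1.2 := ⟨_, rfl⟩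
  rw [← hPd] at hm0lo hm0hi
  have hPd0 : 0 < Pd := by rw [hPd]; exact prod_pos fun p _ => hdpos _ _
  have hcardP : Fintype.card {p : Fin r × Z // U p.1 p.2} ≤ r * Fintype.card Z := by
    refine (Fintype.card_subtype_le _).trans ?_
    rw [Fintype.card_prod, Fintype.card_fin]
  have hPdE : Pd ≤ (E : ℤ) ^ (r * Fintype.card Z) := by
    rw [hPd]
    calc ∏ p : {p : Fin r × Z // U p.1 p.2}, d p.1.1 p.1.2
        ≤ ∏ _p : {p : Fin r × Z // U p.1 p.2}, (E : ℤ) :=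
          prod_le_prod (fun p _ => (hdpos _ _).le) fun p _ => hdE _ _
      _ = (E : ℤ) ^ (Fintype.card {p : Fin r × Z // U p.1 p.2}) := by rw [prod_const, card_univ]
      _ ≤ _ := pow_le_pow_right₀ (by exact_mod_cast hE1) hcardP
  obtain ⟨μ, hμ⟩ : ∃ μ : ℤ, μ = (W : ℤ) * G * Pd := ⟨_, rfl⟩
  rw [← hμ] at hm0lo hm0hi
  have hWz0 : (0 : ℤ) < W := by exact_mod_cast hW0
  have hμ0 : 0 < μ := by rw [hμ]; positivity
  have hWμ : (W : ℤ) ∣ μ := ⟨G * Pd, by rw [hμ]; ring⟩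
  have hGμ : (G : ℤ) ∣ μ := ⟨W * Pd, by rw [hμ]; ring⟩
  have hdμ : ∀ p : {p : Fin r × Z // U p.1 p.2}, d p.1.1 p.1.2 ∣ μ := by
    intro p
    rw [hμ, hPd]
    exact (dvd_prod_of_mem (fun p : {p : Fin r × Z // U p.1 p.2} => d p.1.1 p.1.2)
      (mem_univ p)).mul_left _
  have hmul : ∀ (q : ℤ) (t : ℕ) (e : ℤ), q ∣ μ → q ∣ m0 - e → q ∣ (m0 + t * μ) - e := by
    intro q t e h1 h2
    have : (m0 + t * μ) - e = (m0 - e) + t * μ := by ring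
    rw [this]
    exact dvd_add h2 (h1.mul_left _)
  -- the parameter
  have hz : ∀ t : ℕ, ∃ z : ℤ, m0 + t * μ = (Lp : ℤ) * (2 * a * nst + b) + W' * W₁ * z := by
    intro t
    obtain ⟨z, hz⟩ := hmul _ t _ hWμ hm0W
    exact ⟨z, by rw [← hWz]; linarith⟩
  choose zt hzt using hz
  have hW₁G : (W₁ : ℤ) ∣ (G : ℤ) - 1 := by
    rw [hWz] at hWG
    exact (Dvd.intro_left _ rfl).trans hWG
  have hH : ∀ t : ℕ, ∃ H : ℤ, (m0 + t * μ) ^ 2 - (Lp : ℤ) ^ 2 * D = G * (W' * H) ∧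
      (W₁ : ℤ) ∣ H - (a * nst ^ 2 + b * nst + c) := by
    intro t
    refine algH a b c Lp W₁ G _ (zt t) nst D W' hD hW' hW'G hW₁G (hzt t) ?_
    have h1 := hmul _ t _ hGμ hm0G
    have h4 : (m0 + t * μ) ^ 2 - (Lp : ℤ) ^ 2 * D =
        ((m0 + t * μ) - ρG) * ((m0 + t * μ) + ρG) + (ρG ^ 2 - (Lp : ℤ) ^ 2 * D) := by ring
    rw [h4]
    exact dvd_add (h1.mul_right _) hρG
  choose H hHeq hHv using hH
  have hR : ∀ (t : ℕ) (p : {p : Fin r × Z // U p.1 p.2}), ∃ R' : ℤ,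
      (G : ℤ) + 2 * (m0 + t * μ) * (((p.1.1 : ℕ) + 1 : ℕ) : ℤ) +
        W' * H t * (((p.1.1 : ℕ) + 1 : ℕ) : ℤ) ^ 2 = d p.1.1 p.1.2 * R' := by
    intro t p
    exact dvdR D Lp G _ W' (H t) _ _ (ρp p) (sp p) (hHeq t) (hρp p) (hsp p)
      (hmul _ t _ (hdμ p) (hm0d p)) (hGd _ _).symm
  choose R' hR' using hR
  have hN := fun (t : ℕ) (p : {p : Fin r × Z // U p.1 p.2}) =>
    algN a b c Lp W₁ W G (m0 + t * μ) (zt t) nst (H t) (x p.1.2) (y p.1.2)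
      (((p.1.1 : ℕ) + 1 : ℕ) : ℤ) (d p.1.1 p.1.2) (R' t p) D W' hD hW' hW'0.ne' hWz (hzt t)
      (hHeq t) (hdy _ _) (hR' t p)
  choose n C' hnst hn hfn hCn hdG using hN
  -- the sequences
  obtain ⟨v, hv⟩ : ∃ v : (Fin r ⊕ Z ⊕ ({p : Fin r × Z // U p.1 p.2} × Fin s)) → ℕ → ℤ,
      v = Sum.elim (fun (i : Fin r) (t : ℕ) => (G : ℤ) + 2 * (m0 + t * μ) * (((i : ℕ) + 1 : ℕ) : ℤ) +
        W' * H t * (((i : ℕ) + 1 : ℕ) : ℤ) ^ 2)
      (Sum.elim (fun (z : Z) (t : ℕ) => (W₁ : ℤ) * (G * W * (x z) ^ 2 + 2 * (m0 + t * μ) * (x z) * (y z)) +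
        H t * (y z) ^ 2)
      (fun (pj : {p : Fin r × Z // U p.1 p.2} × Fin s) (t : ℕ) => (g pj.2).eval (n t pj.1))) :=
      ⟨_, rfl⟩
  obtain ⟨e, he⟩ : ∃ e : (Fin r ⊕ Z ⊕ ({p : Fin r × Z // U p.1 p.2} × Fin s)) → ℕ,
      e = Sum.elim (fun _ => 2) (Sum.elim (fun _ => 2)
        (fun pj : {p : Fin r × Z // U p.1 p.2} × Fin s => 2 * (g pj.2).natDegree)) :=
    ⟨_, rfl⟩
  have hsum : ∑ i, e i ≤ k := by
    refine le_trans ?_ hk
    rw [he, Fintype.sum_sum_type, Fintype.sum_sum_type]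
    simp only [Sum.elim_inl, Sum.elim_inr, Finset.sum_const, Finset.card_univ, Fintype.card_fin,
      smul_eq_mul, Fintype.sum_prod_type, ← Finset.mul_sum]
    have := Nat.mul_le_mul_right (2 * ∑ j, (g j).natDegree) hcardP
    linarith
  have hμl : ∀ l : ℕ, l.Prime → l ≤ Y → 2 * k < l → ¬ (l : ℤ) ∣ μ := by
    intro l hl hlY hlk h
    rw [hμ] at h
    have hpp : Prime (l : ℤ) := Nat.prime_iff_prime_int.1 hl
    rcases hpp.dvd_or_dvd h with h | h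
    · rcases hpp.dvd_or_dvd h with h | h
      · have := hWp l hl h
        omega
      · exact int_not_dvd_prime hl hG hlY hYG h
    · rw [hPd] at h
      obtain ⟨p, -, hp⟩ := (Prime.dvd_finsetProd_iff hpp _).1 h
      have := hdr p.1.1 p.1.2 p.2 l hl hp
      omega
  have hhl : ∀ (i : Fin r) (l : ℕ), 2 * k < l → ¬ (l : ℤ) ∣ (((i : ℕ) + 1 : ℕ) : ℤ) := by
    intro i l hlk h
    have h1 := Nat.le_of_dvd (Nat.succ_pos _) (Int.natCast_dvd_natCast.1 h)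
    have := i.2
    omega
  have hlarge : ∀ i, ∀ l : ℕ, l.Prime → l ≤ Y → 2 * k < l → ∃ h : Polynomial (ZMod l), h ≠ 0 ∧
      h.natDegree ≤ e i ∧ ∀ t : ℕ, ((l : ℤ) ∣ v i t ↔ h.eval (t : ZMod l) = 0) := by
    intro i l hl hlY hlk
    have hGl := int_not_dvd_prime hl hG hlY hYG
    have hWl : ¬ (l : ℤ) ∣ (W : ℤ) := fun h => by have := hWp l hl h; omega
    have hW'l : ¬ (l : ℤ) ∣ (W' : ℤ) := fun h => by have := hW'p l hl h; omega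
    have hμl' := hμl l hl hlY hlk
    rcases i with i | z | ⟨p, j⟩
    · rw [hv, he]
      simp only [Sum.elim_inl]
      exact largeR Lp W' G D m0 μ _ l hl hGl hμl' (hhl i l hlk) H _ hHeq fun t => rfl
    · rw [hv, he]
      simp only [Sum.elim_inl, Sum.elim_inr]
      refine largeC Lp W' W G D m0 μ (x z) (y z) l hl hGl hWl hW'l hμl'
        (Nat.isCoprime_iff_coprime.2 (hxy z).2.2.1) H _ hHeq fun t => ?_
      rw [hWz]
      ring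
    · rw [hv, he]
      simp only [Sum.elim_inr]
      refine largeG a b (g j) Lp W' W G D m0 μ (((p.1.1 : ℕ) + 1 : ℕ) : ℤ) (x p.1.2) (y p.1.2)
        (d p.1.1 p.1.2) l hl (hgne j l hl) hW' hGl hWl hW'l hμl' (hhl _ l hlk) ?_
        (Nat.isCoprime_iff_coprime.2 (hxy p.1.2).2.2.1) H _ hHeq fun t => ?_
      · intro h
        have := hdr p.1.1 p.1.2 p.2 l hl h
        omega
      · rw [hn t p]
        have h1 := hR' t p
        have h2 := hdy p.1.1 p.1.2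
        rw [h2]
        linear_combination (-((W : ℤ) * x p.1.2)) * h1
  have hsmall : ∀ i, ∀ l : ℕ, l.Prime → l ≤ Y → l ≤ 2 * k → ∀ t : ℕ, ¬ (l : ℤ) ∣ v i t := by
    intro i l hl hlY hlk t
    have hlL : (l : ℤ) ∣ (Lp : ℤ) := Int.natCast_dvd_natCast.2 ((hLpd l hl).2 hlk)
    have hlW₁ : (l : ℤ) ∣ (W₁ : ℤ) := hlL.trans (Int.natCast_dvd_natCast.2 hLW)
    have hlW' : (l : ℤ) ∣ (W' : ℤ) := by
      rw [hW']
      exact (dvd_pow (hlL.mul_left 2) two_ne_zero).mul_left a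
    have hlW : (l : ℤ) ∣ (W : ℤ) := by rw [hWz]; exact hlW'.mul_right _
    rcases i with i | z | ⟨p, j⟩
    · rw [hv]
      simp only [Sum.elim_inl]
      refine smallR W' G _ (H t) _ l hl hlW' (hlW.trans hWG) ?_
      rw [hzt t]
      exact dvd_add (hlL.mul_right _) ((hlW'.mul_right _).mul_right _)
    · rw [hv]
      simp only [Sum.elim_inl, Sum.elim_inr]
      exact smallC W₁ _ (H t) (y z) (a * nst ^ 2 + b * nst + c) l hlW₁ (hf l hl hlk)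
        (hlW.trans (dvd_sub_one (hxy z).2.1)) (hHv t)
    · rw [hv]
      simp only [Sum.elim_inr]
      exact smallG (g j) Lp _ nst l hlL (hg j l hl hlk) (hnst t p)
  have hfin := hCs _ v e Y hY hsum hlarge hsmall (Y ^ Cs) le_rfl
  obtain ⟨t, ht⟩ : ((range (Y ^ Cs)).filter (fun t => ∀ i, Rough Y (v i t))).Nonempty := by
    rw [← Finset.card_pos]
    by_contra h
    have h1 : ((range (Y ^ Cs)).filter (fun t => ∀ i, Rough Y (v i t))).card = 0 := by omega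
    rw [h1] at hfin
    have hpos : 0 < Y ^ Cs := by positivity
    omega
  rw [mem_filter, mem_range] at ht
  obtain ⟨htT, htr⟩ := ht
  rw [hv] at htr
  have hμWG : (W : ℤ) * G ≤ μ := by
    rw [hμ]
    have : (1 : ℤ) ≤ Pd := hPd0
    nlinarith [mul_pos hWz0 hG0]
  have ht0 : (0 : ℤ) ≤ t * μ := by positivity
  have hmlo : (W : ℤ) * G ≤ m0 + t * μ := by linarith
  refine ⟨m0 + t * μ, H t, hmlo, ?_, hHeq t, ?_, fun i => htr (Sum.inl i),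
    fun z => htr (Sum.inr (Sum.inl z)), fun i z hiz => ?_⟩
  · have h1 : (t : ℤ) ≤ (Y : ℤ) ^ Cs := by exact_mod_cast htT.le
    have h2 := mul_le_mul_of_nonneg_right h1 hμ0.le
    have h3 : μ ≤ W * G * (E : ℤ) ^ (r * Fintype.card Z) := by
      rw [hμ]
      exact mul_le_mul_of_nonneg_left hPdE (by positivity)
    have h4 : m0 + t * μ ≤ ((Y : ℤ) ^ Cs + 2) * μ := by linarith
    refine h4.trans (mul_le_mul_of_nonneg_left h3 (by positivity))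
  · have h1 : 4 * (Lp : ℤ) ^ 2 ≤ W := by
      rw [hWz, hW']
      have h2 : (1 : ℤ) ≤ W₁ := by exact_mod_cast hW₁
      have h3 : (1 : ℤ) ≤ a := ha
      calc 4 * (Lp : ℤ) ^ 2 = 1 * (2 * (Lp : ℤ)) ^ 2 * 1 := by ring
        _ ≤ a * (2 * (Lp : ℤ)) ^ 2 * W₁ := by
          apply mul_le_mul _ h2 (by norm_num) (by positivity)
          exact mul_le_mul_of_nonneg_right h3 (by positivity)
    have h2 : 4 * (Lp : ℤ) ^ 2 * G ≤ m0 + t * μ :=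
      (mul_le_mul_of_nonneg_right h1 hG0.le).trans hmlo
    have h3 : (Lp : ℤ) ^ 2 * D ≤ (Lp : ℤ) ^ 2 * G :=
      mul_le_mul_of_nonneg_left ((le_abs_self D).trans hDG) (sq_nonneg _)
    have h4 : 0 < (Lp : ℤ) ^ 2 * G := by positivity
    have h5 : 0 < m0 + t * μ := by linarith
    have h6 : m0 + t * μ ≤ (m0 + t * μ) ^ 2 := le_self_pow₀ (Int.add_one_le_iff.2 h5) two_ne_zero
    have h7 : 0 < (G : ℤ) * (W' * H t) := by
      rw [← hHeq t]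
      linarith
    have h8 : 0 < (W' : ℤ) * H t := (mul_pos_iff_of_pos_left hG0).1 h7
    exact (mul_pos_iff_of_pos_left hW'0).1 h8
  · refine ⟨n t ⟨(i, z), hiz⟩, R' t ⟨(i, z), hiz⟩, C' t ⟨(i, z), hiz⟩, ?_, hn t ⟨(i, z), hiz⟩,
      hfn t ⟨(i, z), hiz⟩, ?_, ?_, fun j => htr (Sum.inr (Sum.inr (⟨(i, z), hiz⟩, j)))⟩
    · rw [← hd]; exact hR' t ⟨(i, z), hiz⟩
    · rw [← hd]; exact hCn t ⟨(i, z), hiz⟩
    · rw [← hd]; exact hdG t ⟨(i, z), hiz⟩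

end Pool.Agent.N576.QA
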