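import Pool.Agent.N576.QA.Core
import Pool.Agent.TH423.DS.Main

/-! Counting, and the theorem in terms of `X ^ δ` (helper576). -/

set_option autoImplicit false

open Finset Polynomial Filter Topology

namespace Pool.Agent.N576.QA

open Pool.Agent.H661R3.OP (Rough)
open Pool.Agent.TH423.DS (cardFactors_le card_divisors_le primes_count poly_bound poly_bounds
  AlmostPrime almostPrime_of_rough)

theorem Exc_finite {Γ : Type} (a b c : ℤ) {s : ℕ} (g : Fin s → ℤ[X]) (Φ : ℕ → ℤ → Γ) (T : Set Γ)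
    (Y X : ℕ) : (Exc a b c g Φ T Y X).Finite :=
  (Set.finite_Iic X).subset fun _ hn => hn.2.1

theorem count (a b c : ℤ) (ha : 0 < a) (hD : b ^ 2 - 4 * a * c ≠ 0) {s : ℕ} (g : Fin s → ℤ[X])
    (hadm : ∀ p : ℕ, p.Prime → ∃ n : ℤ, ¬ (p : ℤ) ∣ a * n ^ 2 + b * n + c ∧
      ∀ j, ¬ (p : ℤ) ∣ (g j).eval n) (Γ : Type) [AddCommGroup Γ] [Finite Γ] (γ : Γ) (q₀ : ℕ)
    (hq₀ : 0 < q₀) :
    ∃ q C₂ C₃ Y₀ L : ℕ, 0 < q ∧ 2 ≤ Y₀ ∧ ∀ Y Z X R : ℕ, Y₀ ≤ Y → Y ^ C₃ ≤ Z → Y ^ C₂ * Z ≤ X →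
    (∀ n : ℕ, n ≤ X → |a * (n : ℤ) ^ 2 + b * n + c| < (Y : ℤ) ^ (R + 1)) →
    ∀ (Φ : ℕ → ℤ → Γ), (∀ r s : ℕ, r ≠ 0 → s ≠ 0 → ∀ ν : ℤ,
      ((r * s : ℕ) : ℤ) ∣ a * ν ^ 2 + b * ν + c → Φ (r * s) ν = Φ r ν + Φ s ν) →
    (∀ r : ℕ, r ≠ 0 → ∀ ν ν' : ℤ, (r : ℤ) ∣ a * ν ^ 2 + b * ν + c → (r : ℤ) ∣ ν - ν' →
      Φ r ν = Φ r ν') →
    (∀ p : ℕ, p.Prime → p % q₀ = 1 % q₀ → Y < p → p ≤ Y ^ C₃ → ∀ ν ν' : ℤ,
      (p : ℤ) ∣ a * ν ^ 2 + b * ν + c → (p : ℤ) ∣ a * ν' ^ 2 + b * ν' + c →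
      ¬ (p : ℤ) ∣ ν - ν' → Φ p ν + Φ p ν' = γ) → ∀ (T : Set Γ),
    (∀ h : Γ, ∃ j : ℕ, h - j • γ ∈ T) →
    ((Ioc Z (2 * Z)).filter (fun p : ℕ => p.Prime ∧ (q : ℤ) ∣ (p : ℤ) - 1)).card ≤
      L * 2 ^ R * (Exc a b c g Φ T Y X).ncard := by
  classical
  obtain ⟨q, C₂, C₃, Y₀, L, hq, hY₀, hcore⟩ := core a b c ha hD g hadm Γ γ q₀ hq₀
  refine ⟨q, C₂, C₃, Y₀, L, hq, hY₀, ?_⟩
  intro Y Z X R hY hYZ hZX hR Φ hΦ hΦ' hΦγ T hT
  obtain ⟨Ψ, h1⟩ := hcore Y Z X hY hYZ hZX Φ hΦ hΦ' hΦγ T hT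
  have h2 : ∀ G ∈ (Ioc Z (2 * Z)).filter (fun p : ℕ => p.Prime ∧ (q : ℤ) ∣ (p : ℤ) - 1),
      ∃ n ∈ Exc a b c g Φ T Y X, ∃ R' : ℕ, R' ∣ (a * (n : ℤ) ^ 2 + b * n + c).natAbs ∧
      ∃ p : ℕ, p < L ∧ ∃ h : p < L, G = Ψ n R' ⟨p, h⟩ := by
    intro G hG
    rw [mem_filter, mem_Ioc] at hG
    obtain ⟨n, hn, R', hR', p, hp⟩ := h1 G hG.2.1 hG.1.1 hG.1.2 hG.2.2
    exact ⟨n, hn, R', hR', p, p.2, p.2, hp⟩
  choose! nf hnf df hdf pf hpfL hpf using h2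
  obtain ⟨E, hE⟩ : ∃ E : Finset ℕ, ∀ n, n ∈ E ↔ n ∈ Exc a b c g Φ T Y X :=
    ⟨(Exc_finite a b c g Φ T Y X).toFinset, fun n => Set.Finite.mem_toFinset _⟩
  have hEcard : (Exc a b c g Φ T Y X).ncard = E.card := by
    rw [← Set.ncard_coe_finset]
    congr 1
    ext n
    rw [mem_coe, hE]
  have hinjφ : Set.InjOn (fun G => ((⟨nf G, df G⟩ : Σ _ : ℕ, ℕ), pf G))
      ((Ioc Z (2 * Z)).filter (fun p : ℕ => p.Prime ∧ (q : ℤ) ∣ (p : ℤ) - 1) : Finset ℕ) := by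
    intro G hG G' hG' heq
    rw [mem_coe] at hG hG'
    simp only [Prod.mk.injEq, Sigma.mk.injEq, heq_eq_eq] at heq
    obtain ⟨⟨hn, hd⟩, hA⟩ := heq
    obtain ⟨e1, e2⟩ := hpf G hG
    obtain ⟨e3, e4⟩ := hpf G' hG'
    rw [e2, e4]
    congr 1
    exact Fin.ext hA
  have hmaps : ∀ G ∈ (Ioc Z (2 * Z)).filter (fun p : ℕ => p.Prime ∧ (q : ℤ) ∣ (p : ℤ) - 1),
      (fun G => ((⟨nf G, df G⟩ : Σ _ : ℕ, ℕ), pf G)) G ∈
      (E.sigma (fun n => (a * (n : ℤ) ^ 2 + b * n + c).natAbs.divisors)) ×ˢ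
        range L := by
    intro G hG
    simp only [mem_product, mem_sigma, mem_range]
    refine ⟨⟨(hE _).2 (hnf G hG), Nat.mem_divisors.2 ⟨hdf G hG, ?_⟩⟩, hpfL G hG⟩
    have h4 := (hnf G hG).2.2.1
    intro h5
    rw [Int.natAbs_eq_zero] at h5
    omega
  refine (card_le_card_of_injOn _ hmaps hinjφ).trans ?_
  rw [card_product, card_sigma, hEcard, card_range]
  have hdiv : ∑ n ∈ E, (a * (n : ℤ) ^ 2 + b * n + c).natAbs.divisors.card ≤ ∑ n ∈ E, 2 ^ R := by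
    apply sum_le_sum
    intro n hn
    have hn' := (hE n).1 hn
    have h4 := hn'.2.2.1
    have h0 : (a * (n : ℤ) ^ 2 + b * n + c).natAbs ≠ 0 := by
      intro h5
      rw [Int.natAbs_eq_zero] at h5
      omega
    refine (card_divisors_le _ h0).trans (Nat.pow_le_pow_right (by norm_num) ?_)
    refine cardFactors_le (by omega : 1 ≤ Y) h0 ?_ ?_
    · rw [Int.natCast_natAbs, abs_of_pos h4]
      exact hn'.2.2.2.1
    · have := hR n hn'.2.1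
      zify
      exact_mod_cast this
  rw [sum_const, smul_eq_mul] at hdiv
  calc (∑ n ∈ E, (a * (n : ℤ) ^ 2 + b * n + c).natAbs.divisors.card) * L
      ≤ (E.card * 2 ^ R) * L := Nat.mul_le_mul_right _ hdiv
    _ = L * 2 ^ R * E.card := by ring

/-- the integers `1 ≤ n ≤ X` with `f n > 0`, `f n` and all the `g_j n` almost prime, and with a given
value of `Φ (f n) n` -/
def Vals {Γ : Type} (a b c : ℤ) {s : ℕ} (g : Fin s → ℤ[X]) (Φ : ℕ → ℤ → Γ) (δ : ℝ) (R X : ℕ)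
    (t : Γ) : Set ℕ :=
  {n : ℕ | 1 ≤ n ∧ n ≤ X ∧ 0 < a * (n : ℤ) ^ 2 + b * n + c ∧
      AlmostPrime ((X : ℝ) ^ δ) R (a * (n : ℤ) ^ 2 + b * n + c) ∧
      (∀ j, AlmostPrime ((X : ℝ) ^ δ) R ((g j).eval (n : ℤ))) ∧
      Φ (a * (n : ℤ) ^ 2 + b * n + c).natAbs n = t}

theorem main (a b c : ℤ) (ha : 0 < a) (hD : b ^ 2 - 4 * a * c ≠ 0) {s : ℕ} (g : Fin s → ℤ[X])
    (hadm : ∀ p : ℕ, p.Prime → ∃ n : ℤ, ¬ (p : ℤ) ∣ a * n ^ 2 + b * n + c ∧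
      ∀ j, ¬ (p : ℤ) ∣ (g j).eval n) (Γ : Type) [AddCommGroup Γ] [Finite Γ] (γ : Γ) (q₀ : ℕ)
    (hq₀ : 0 < q₀) (ε : ℝ) (hε : 0 < ε) :
    ∃ R X₀ : ℕ, ∃ δ : ℝ, 0 < δ ∧ ∀ X : ℕ, X₀ ≤ X →
    ∀ (Φ : ℕ → ℤ → Γ), (∀ r s : ℕ, r ≠ 0 → s ≠ 0 → ∀ ν : ℤ,
      ((r * s : ℕ) : ℤ) ∣ a * ν ^ 2 + b * ν + c → Φ (r * s) ν = Φ r ν + Φ s ν) →
    (∀ r : ℕ, r ≠ 0 → ∀ ν ν' : ℤ, (r : ℤ) ∣ a * ν ^ 2 + b * ν + c → (r : ℤ) ∣ ν - ν' →
      Φ r ν = Φ r ν') →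
    (∀ p : ℕ, p.Prime → p % q₀ = 1 % q₀ → (X : ℝ) ^ δ < p → (p : ℝ) ≤ (X : ℝ) ^ ε → ∀ ν ν' : ℤ,
      (p : ℤ) ∣ a * ν ^ 2 + b * ν + c → (p : ℤ) ∣ a * ν' ^ 2 + b * ν' + c →
      ¬ (p : ℤ) ∣ ν - ν' → Φ p ν + Φ p ν' = γ) →
    ∃ h : Γ, ∀ j : ℕ,
      (X : ℝ) ^ (1 - ε) ≤ ((Vals a b c g Φ δ R X (h + j • γ)).ncard : ℝ) := by
  classical
  have : Fintype Γ := Fintype.ofFinite Γ
  obtain ⟨q, C₂, C₃, Y₀, L, hq, hY₀, hcount⟩ := count a b c ha hD g hadm Γ γ q₀ hq₀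
  obtain ⟨ε', hε'⟩ : ∃ ε' : ℝ, ε' = min ε (1 / 2) := ⟨_, rfl⟩
  have hε'0 : 0 < ε' := by rw [hε']; positivity
  have hε'ε : ε' ≤ ε := by rw [hε']; exact min_le_left _ _
  have hε'2 : ε' ≤ 1 / 2 := by rw [hε']; exact min_le_right _ _
  obtain ⟨Z₀, hZ₀⟩ := primes_count q hq (ε' / 4) (by positivity)
  obtain ⟨B₁, X₁, hB₁⟩ := poly_bound (C a * X ^ 2 + C b * X + C c)
  obtain ⟨B₂, X₂, hB₂⟩ := poly_bounds g
  obtain ⟨δ, hδ⟩ : ∃ δ : ℝ, δ = ε' / (8 * (C₂ + C₃ + 1)) := ⟨_, rfl⟩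
  have hC4 : (0 : ℝ) < (C₂ : ℝ) + C₃ + 1 := by positivity
  have hδ0 : 0 < δ := by rw [hδ]; positivity
  have hδC : δ * (C₂ + C₃ + 1) = ε' / 8 := by rw [hδ]; field_simp
  have hδC₂0 : 0 ≤ δ * C₂ := by positivity
  have hδC₃0 : 0 ≤ δ * C₃ := by positivity
  obtain ⟨t, ht⟩ := exists_nat_ge (2 / δ)
  have htδ : 2 ≤ t * δ := by rwa [div_le_iff₀ hδ0] at ht
  obtain ⟨R, hR⟩ : ∃ R : ℕ, R = t * (B₁ + B₂) := ⟨_, rfl⟩
  -- all the largeness conditions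
  have hn : Tendsto (fun X : ℕ => (X : ℝ)) atTop atTop := tendsto_natCast_atTop_atTop
  have hn1 : Tendsto (fun X : ℕ => (X : ℝ) ^ (δ / 2)) atTop atTop :=
    (tendsto_rpow_atTop (by positivity)).comp hn
  have hn2 : Tendsto (fun X : ℕ => (X : ℝ) ^ (ε' / 2)) atTop atTop :=
    (tendsto_rpow_atTop (by positivity)).comp hn
  have hn3 : Tendsto (fun X : ℕ => (X : ℝ) ^ (1 / 2 : ℝ)) atTop atTop :=
    (tendsto_rpow_atTop (by positivity)).comp hn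
  have hev := (((hn1.eventually (eventually_ge_atTop ((Y₀ + 4 : ℕ) : ℝ))).and
    (hn2.eventually (eventually_ge_atTop (2 * ((L * 2 ^ R * Fintype.card Γ : ℕ) : ℝ) + 1)))).and
    (eventually_ge_atTop (X₁ + X₂ + 2))).and
    (hn3.eventually (eventually_ge_atTop ((2 * Z₀ + 2 : ℕ) : ℝ)))
  obtain ⟨X₀, hX₀⟩ := eventually_atTop.1 hev
  refine ⟨R, X₀, δ, hδ0, fun X hX Φ hΦ hΦ' hΦγ => ?_⟩
  obtain ⟨⟨⟨hA, hB⟩, hX12⟩, hZZ⟩ := hX₀ X hX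
  have hX2 : (2 : ℝ) ≤ X := by exact_mod_cast (by omega : 2 ≤ X)
  have hXp : (0 : ℝ) < X := by linarith
  obtain ⟨Y, hY⟩ : ∃ Y : ℕ, Y = ⌊(X : ℝ) ^ δ⌋₊ := ⟨_, rfl⟩
  have hsq : (X : ℝ) ^ (δ / 2) * (X : ℝ) ^ (δ / 2) = (X : ℝ) ^ δ := by
    rw [← Real.rpow_add hXp]; congr 1; ring
  obtain ⟨x, hx⟩ : ∃ x : ℝ, x = (X : ℝ) ^ (δ / 2) := ⟨_, rfl⟩
  rw [← hx] at hsq hA
  have hYle : (Y : ℝ) ≤ (X : ℝ) ^ δ := by
    rw [hY]; exact Nat.floor_le (by positivity)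
  have hYlt : (X : ℝ) ^ δ < Y + 1 := by
    rw [hY]; exact Nat.lt_floor_add_one _
  have hA4 : (4 : ℝ) ≤ x := by
    refine le_trans ?_ hA
    push_cast
    have : (0 : ℝ) ≤ (Y₀ : ℝ) := by positivity
    linarith
  have hxY : x ≤ Y := by
    have : x ≤ x * x - 1 := by nlinarith
    linarith
  have hYN : Y₀ + 4 ≤ Y := by exact_mod_cast hA.trans hxY
  have hY4 : (4 : ℝ) ≤ Y := hA4.trans hxY
  have hpowY : ∀ e : ℕ, (Y : ℝ) ^ e ≤ (X : ℝ) ^ (δ * e) := by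
    intro e
    calc ((Y : ℝ)) ^ e ≤ ((X : ℝ) ^ δ) ^ e := pow_le_pow_left₀ (by positivity) hYle _
      _ = (X : ℝ) ^ (δ * e) := by
          rw [← Real.rpow_natCast, ← Real.rpow_mul hXp.le]
  obtain ⟨Z, hZ⟩ : ∃ Z : ℕ, Z = X / Y ^ C₂ := ⟨_, rfl⟩
  have hYpos : 0 < Y ^ C₂ := by
    have : 0 < Y := by omega
    positivity
  have hYC3 : Y ^ (C₂ + C₃) ≤ X := by
    have h1 : ((Y : ℝ)) ^ (C₂ + C₃) ≤ X := by
      calc ((Y : ℝ)) ^ (C₂ + C₃) ≤ (X : ℝ) ^ (δ * ((C₂ + C₃ : ℕ) : ℝ)) := hpowY _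
        _ ≤ (X : ℝ) ^ (1 : ℝ) := by
            apply Real.rpow_le_rpow_of_exponent_le (by linarith)
            push_cast
            nlinarith
        _ = X := Real.rpow_one _
    exact_mod_cast h1
  have hYZ : Y ^ C₃ ≤ Z := by
    rw [hZ, Nat.le_div_iff_mul_le hYpos, ← pow_add, add_comm C₃]
    exact hYC3
  have hZX : Y ^ C₂ * Z ≤ X := by rw [hZ]; exact Nat.mul_div_le _ _
  have hZ1 : 1 ≤ Z := le_trans (Nat.one_le_pow _ _ (by omega)) hYZ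
  have hXt : (X : ℤ) ≤ (Y : ℤ) ^ t := by
    have h1 : (X : ℝ) ≤ (Y : ℝ) ^ t := by
      calc (X : ℝ) = (X : ℝ) ^ (1 : ℝ) := (Real.rpow_one _).symm
        _ ≤ (X : ℝ) ^ (δ / 2 * t) := by
            apply Real.rpow_le_rpow_of_exponent_le (by linarith)
            nlinarith
        _ = x ^ t := by rw [Real.rpow_mul hXp.le, Real.rpow_natCast, hx]
        _ ≤ (Y : ℝ) ^ t := pow_le_pow_left₀ (by linarith) hxY t
    exact_mod_cast h1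
  have hY1' : (1 : ℤ) < Y := by exact_mod_cast (by omega : 1 < Y)
  have hXB : ∀ B : ℕ, B ≤ B₁ + B₂ → (X : ℤ) ^ B < (Y : ℤ) ^ (R + 1) := by
    intro B hBB
    calc (X : ℤ) ^ B ≤ ((Y : ℤ) ^ t) ^ B := pow_le_pow_left₀ (by positivity) hXt B
      _ = (Y : ℤ) ^ (t * B) := by rw [← pow_mul]
      _ ≤ (Y : ℤ) ^ R := by
          apply pow_le_pow_right₀ hY1'.le
          rw [hR]
          exact Nat.mul_le_mul_left _ hBB
      _ < (Y : ℤ) ^ (R + 1) := pow_lt_pow_right₀ hY1' (by omega)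
  have hf : ∀ n : ℕ, n ≤ X → |a * (n : ℤ) ^ 2 + b * n + c| < (Y : ℤ) ^ (R + 1) := by
    intro n hn
    have h1 := hB₁ X (by omega) n hn
    have h2 : (C a * Polynomial.X ^ 2 + C b * Polynomial.X + C c : ℤ[X]).eval (n : ℤ) =
        a * (n : ℤ) ^ 2 + b * n + c := by
      simp
    rw [h2] at h1
    exact h1.trans_lt (hXB B₁ (by omega))
  have hg : ∀ n : ℕ, n ≤ X → ∀ j, |(g j).eval (n : ℤ)| < (Y : ℤ) ^ (R + 1) := by
    intro n hn j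
    exact (hB₂ X (by omega) n hn j).trans_lt (hXB B₂ (by omega))
  have hZlow : (X : ℝ) ^ (1 - δ * C₂) / 2 ≤ Z := by
    have h1 : X < Y ^ C₂ * (Z + 1) := by
      rw [hZ]
      exact Nat.lt_mul_div_succ X hYpos
    have h2 : (X : ℝ) < (Y : ℝ) ^ C₂ * (Z + 1) := by exact_mod_cast h1
    have h3 : (Y : ℝ) ^ C₂ ≤ (X : ℝ) ^ (δ * C₂) := hpowY C₂
    have h4 : (1 : ℝ) ≤ Z := by exact_mod_cast hZ1
    have h5 : (X : ℝ) ≤ (X : ℝ) ^ (δ * C₂) * (2 * Z) := by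
      calc (X : ℝ) ≤ (Y : ℝ) ^ C₂ * (Z + 1) := h2.le
        _ ≤ (X : ℝ) ^ (δ * C₂) * (Z + 1) := mul_le_mul_of_nonneg_right h3 (by linarith)
        _ ≤ (X : ℝ) ^ (δ * C₂) * (2 * Z) :=
          mul_le_mul_of_nonneg_left (by linarith) (by positivity)
    have h6 : (X : ℝ) ^ (1 - δ * C₂) * (X : ℝ) ^ (δ * C₂) = X := by
      rw [← Real.rpow_add hXp]
      simp
    have h7 : 0 < (X : ℝ) ^ (δ * C₂) := by positivity
    rw [div_le_iff₀ (by norm_num)]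
    by_contra hcon
    push Not at hcon
    have := mul_lt_mul_of_pos_right hcon h7
    nlinarith
  have hδC₂1 : δ * C₂ ≤ ε' / 8 := by nlinarith
  have hZ₀Z : Z₀ ≤ Z := by
    have h1 : (X : ℝ) ^ (1 / 2 : ℝ) ≤ (X : ℝ) ^ (1 - δ * C₂) :=
      Real.rpow_le_rpow_of_exponent_le (by linarith) (by linarith)
    have h2 : ((2 * Z₀ + 2 : ℕ) : ℝ) ≤ 2 * Z := by linarith
    push_cast at h2
    have h3 : (Z₀ : ℝ) ≤ Z := by linarith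
    exact_mod_cast h3
  have hprimes := hZ₀ Z hZ₀Z
  have hΦγ' : ∀ p : ℕ, p.Prime → p % q₀ = 1 % q₀ → Y < p → p ≤ Y ^ C₃ → ∀ ν ν' : ℤ,
      (p : ℤ) ∣ a * ν ^ 2 + b * ν + c → (p : ℤ) ∣ a * ν' ^ 2 + b * ν' + c →
      ¬ (p : ℤ) ∣ ν - ν' → Φ p ν + Φ p ν' = γ := by
    intro p hp hpq hYp hpY
    refine hΦγ p hp hpq ?_ ?_
    · have : ((Y : ℝ) + 1) ≤ p := by exact_mod_cast hYp
      linarith
    · have h1 : (p : ℝ) ≤ (Y : ℝ) ^ C₃ := by exact_mod_cast hpY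
      refine h1.trans ((hpowY C₃).trans ?_)
      apply Real.rpow_le_rpow_of_exponent_le (by linarith)
      nlinarith
  -- the argument
  by_contra hcon
  push Not at hcon
  have hmain := hcount Y Z X R (by omega) hYZ hZX hf Φ hΦ hΦ' hΦγ'
    {t | ((Vals a b c g Φ δ R X t).ncard : ℝ) < (X : ℝ) ^ (1 - ε)} (by
      intro h
      obtain ⟨j, hj⟩ := hcon h
      refine ⟨j * (Fintype.card Γ - 1), ?_⟩
      have h1 : h - (j * (Fintype.card Γ - 1)) • γ = h + j • γ := by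
        have h2 : j • γ + (j * (Fintype.card Γ - 1)) • γ = 0 := by
          rw [← add_nsmul]
          have h3 : j + j * (Fintype.card Γ - 1) = j * Fintype.card Γ := by
            have h4 : 1 ≤ Fintype.card Γ := Fintype.card_pos
            obtain ⟨e, he⟩ := Nat.exists_eq_add_of_le h4
            rw [he]
            simp only [Nat.add_sub_cancel_left]
            ring
          rw [h3, mul_nsmul, card_nsmul_eq_zero]
        rw [sub_eq_iff_eq_add, add_assoc, h2, add_zero]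
      rw [h1]
      exact hj)
  obtain ⟨E, hE⟩ : ∃ E : Finset ℕ, ∀ n, n ∈ E ↔ n ∈ Exc a b c g Φ
      {t | ((Vals a b c g Φ δ R X t).ncard : ℝ) < (X : ℝ) ^ (1 - ε)} Y X :=
    ⟨(Exc_finite a b c g Φ _ Y X).toFinset, fun n => Set.Finite.mem_toFinset _⟩
  have hEcard : (Exc a b c g Φ
      {t | ((Vals a b c g Φ δ R X t).ncard : ℝ) < (X : ℝ) ^ (1 - ε)} Y X).ncard = E.card := by
    rw [← Set.ncard_coe_finset]
    congr 1
    ext n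
    rw [mem_coe, hE]
  rw [hEcard] at hmain
  have hEle : (E.card : ℝ) ≤ Fintype.card Γ * (X : ℝ) ^ (1 - ε) := by
    rw [card_eq_sum_card_fiberwise (f := fun n : ℕ => Φ (a * (n : ℤ) ^ 2 + b * n + c).natAbs n)
      (t := univ) (fun n _ => mem_coe.2 (mem_univ _))]
    push_cast
    have hfib : ∀ t ∈ (univ : Finset Γ), ((E.filter (fun n : ℕ =>
        Φ (a * (n : ℤ) ^ 2 + b * n + c).natAbs n = t)).card : ℝ) ≤ (X : ℝ) ^ (1 - ε) := by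
      intro t _
      by_cases hne : (E.filter (fun n : ℕ => Φ (a * (n : ℤ) ^ 2 + b * n + c).natAbs n = t)) = ∅
      · rw [hne, card_empty, Nat.cast_zero]
        positivity
      · obtain ⟨n₀, hn₀⟩ := nonempty_iff_ne_empty.2 hne
        rw [mem_filter, hE] at hn₀
        have hT : ((Vals a b c g Φ δ R X t).ncard : ℝ) < (X : ℝ) ^ (1 - ε) := by
          have := hn₀.1.2.2.2.2.2
          rw [hn₀.2] at this
          exact this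
        refine le_trans ?_ hT.le
        have hfin : (Vals a b c g Φ δ R X t).Finite :=
          (Set.finite_Iic X).subset fun n hn => hn.2.1
        have hsub : ((E.filter (fun n : ℕ => Φ (a * (n : ℤ) ^ 2 + b * n + c).natAbs n = t) :
            Finset ℕ) : Set ℕ) ⊆ Vals a b c g Φ δ R X t := by
          intro n hn
          rw [mem_coe, mem_filter, hE] at hn
          obtain ⟨⟨h1, h2, h3, h4, h5, -⟩, h6⟩ := hn
          exact ⟨h1, h2, h3, almostPrime_of_rough (by omega) hYlt h4 (hf n h2),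
            fun j => almostPrime_of_rough (by omega) hYlt (h5 j) (hg n h2 j), h6⟩
        have := Set.ncard_le_ncard hsub hfin
        rw [Set.ncard_coe_finset] at this
        exact_mod_cast this
    refine (sum_le_sum hfib).trans ?_
    rw [sum_const, card_univ, nsmul_eq_mul]
  have hchain : (Z : ℝ) ^ (1 - ε' / 4) ≤
      ((L * 2 ^ R * Fintype.card Γ : ℕ) : ℝ) * (X : ℝ) ^ (1 - ε) := by
    refine hprimes.trans ?_
    calc (((Ioc Z (2 * Z)).filter (fun p : ℕ => p.Prime ∧ (q : ℤ) ∣ (p : ℤ) - 1)).card : ℝ)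
        ≤ ((L * 2 ^ R * E.card : ℕ) : ℝ) := by exact_mod_cast hmain
      _ = ((L * 2 ^ R : ℕ) : ℝ) * (E.card : ℝ) := by push_cast; ring
      _ ≤ ((L * 2 ^ R : ℕ) : ℝ) * (Fintype.card Γ * (X : ℝ) ^ (1 - ε)) :=
          mul_le_mul_of_nonneg_left hEle (Nat.cast_nonneg _)
      _ = _ := by push_cast; ring
  have h8 : (X : ℝ) ^ (1 - ε' / 2) * (1 / 2) ≤ (Z : ℝ) ^ (1 - ε' / 4) := by
    have h9 : ((X : ℝ) ^ (1 - δ * C₂) / 2) ^ (1 - ε' / 4) ≤ (Z : ℝ) ^ (1 - ε' / 4) :=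
      Real.rpow_le_rpow (by positivity) hZlow (by linarith)
    refine le_trans ?_ h9
    rw [Real.div_rpow (by positivity) (by norm_num), ← Real.rpow_mul hXp.le, mul_one_div]
    have h10 : (2 : ℝ) ^ (1 - ε' / 4) ≤ 2 := by
      calc (2 : ℝ) ^ (1 - ε' / 4) ≤ (2 : ℝ) ^ (1 : ℝ) :=
            Real.rpow_le_rpow_of_exponent_le (by norm_num) (by linarith)
        _ = 2 := Real.rpow_one _
    have h11 : (X : ℝ) ^ (1 - ε' / 2) ≤ (X : ℝ) ^ ((1 - δ * C₂) * (1 - ε' / 4)) := by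
      apply Real.rpow_le_rpow_of_exponent_le (by linarith)
      nlinarith
    calc (X : ℝ) ^ (1 - ε' / 2) / 2 ≤ (X : ℝ) ^ ((1 - δ * C₂) * (1 - ε' / 4)) / 2 := by linarith
      _ ≤ (X : ℝ) ^ ((1 - δ * C₂) * (1 - ε' / 4)) / (2 : ℝ) ^ (1 - ε' / 4) :=
        div_le_div_of_nonneg_left (by positivity) (by positivity) h10
  have h14 : (X : ℝ) ^ (1 - ε) ≤ (X : ℝ) ^ (1 - ε') :=
    Real.rpow_le_rpow_of_exponent_le (by linarith) (by linarith)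
  have h15 : (X : ℝ) ^ (1 - ε') * (X : ℝ) ^ (ε' / 2) = (X : ℝ) ^ (1 - ε' / 2) := by
    rw [← Real.rpow_add hXp]
    congr 1
    ring
  have h16 : 0 < (X : ℝ) ^ (1 - ε') := by positivity
  have h17 : (X : ℝ) ^ (1 - ε') * (X : ℝ) ^ (ε' / 2) ≤
      (X : ℝ) ^ (1 - ε') * (2 * ((L * 2 ^ R * Fintype.card Γ : ℕ) : ℝ)) := by
    rw [h15]
    have h18 : ((L * 2 ^ R * Fintype.card Γ : ℕ) : ℝ) * (X : ℝ) ^ (1 - ε) ≤
        ((L * 2 ^ R * Fintype.card Γ : ℕ) : ℝ) * (X : ℝ) ^ (1 - ε') :=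
      mul_le_mul_of_nonneg_left h14 (Nat.cast_nonneg _)
    linarith
  have h19 := le_of_mul_le_mul_left h17 h16
  linarith

end Pool.Agent.N576.QA
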