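import Pool.Agent.N576.QA.Main

/-! The number of prime factors at which `n` is the chosen root (helper576). -/

set_option autoImplicit false

open Finset Polynomial Filter Topology

namespace Pool.Agent.N576.QA

/-- the number of prime factors `p` of `r`, counted with multiplicity, with `ν ≡ ρ p (mod p)` -/
def rootCount (ρ : ℕ → ℤ) (r : ℕ) (ν : ℤ) : ℕ :=
  (r.primeFactorsList.filter (fun p : ℕ => (p : ℤ) ∣ ν - ρ p)).length

theorem rootCount_mul (ρ : ℕ → ℤ) (r s : ℕ) (hr : r ≠ 0) (hs : s ≠ 0) (ν : ℤ) :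
    rootCount ρ (r * s) ν = rootCount ρ r ν + rootCount ρ s ν := by
  unfold rootCount
  rw [((Nat.perm_primeFactorsList_mul hr hs).filter _).length_eq, List.filter_append,
    List.length_append]

theorem rootCount_congr (ρ : ℕ → ℤ) (r : ℕ) (ν ν' : ℤ) (h : (r : ℤ) ∣ ν - ν') :
    rootCount ρ r ν = rootCount ρ r ν' := by
  unfold rootCount
  congr 1
  apply List.filter_congr
  intro p hp
  have h1 : (p : ℤ) ∣ ν - ν' :=
    (Int.natCast_dvd_natCast.2 (Nat.dvd_of_mem_primeFactorsList hp)).trans h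
  have h2 : ν - ρ p = (ν - ν') + (ν' - ρ p) := by ring
  rw [h2]
  simp only [decide_eq_decide]
  exact dvd_add_right h1

theorem rootCount_prime (ρ : ℕ → ℤ) (p : ℕ) (hp : p.Prime) (ν : ℤ) :
    rootCount ρ p ν = if (p : ℤ) ∣ ν - ρ p then 1 else 0 := by
  unfold rootCount
  rw [Nat.primeFactorsList_prime hp]
  by_cases h : (p : ℤ) ∣ ν - ρ p
  · simp [h]
  · simp [h]

theorem rootCount_add (a b c : ℤ) (ρ : ℕ → ℤ) (p : ℕ) (hp : p.Prime) (hpa : ¬ (p : ℤ) ∣ a)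
    (ν ν' : ℤ) (h1 : (p : ℤ) ∣ a * ν ^ 2 + b * ν + c) (h2 : (p : ℤ) ∣ a * ν' ^ 2 + b * ν' + c)
    (h3 : (p : ℤ) ∣ a * (ρ p) ^ 2 + b * (ρ p) + c) (h4 : ¬ (p : ℤ) ∣ ν - ν') :
    rootCount ρ p ν + rootCount ρ p ν' = 1 := by
  have hpp : Prime (p : ℤ) := Nat.prime_iff_prime_int.1 hp
  have key : ∀ x : ℤ, (p : ℤ) ∣ a * x ^ 2 + b * x + c → ¬ (p : ℤ) ∣ x - ρ p →
      (p : ℤ) ∣ a * (x + ρ p) + b := by
    intro x hx hne
    have h5 : (p : ℤ) ∣ (x - ρ p) * (a * (x + ρ p) + b) := by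
      have e : (x - ρ p) * (a * (x + ρ p) + b) = (a * x ^ 2 + b * x + c) -
        (a * (ρ p) ^ 2 + b * (ρ p) + c) := by ring
      rw [e]
      exact dvd_sub hx h3
    exact (hpp.dvd_or_dvd h5).resolve_left hne
  rw [rootCount_prime ρ p hp, rootCount_prime ρ p hp]
  by_cases hν : (p : ℤ) ∣ ν - ρ p
  · by_cases hν' : (p : ℤ) ∣ ν' - ρ p
    · exfalso
      apply h4
      have e : ν - ν' = (ν - ρ p) - (ν' - ρ p) := by ring
      rw [e]
      exact dvd_sub hν hν'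
    · rw [if_pos hν, if_neg hν']
  · by_cases hν' : (p : ℤ) ∣ ν' - ρ p
    · rw [if_neg hν, if_pos hν']
    · exfalso
      have h5 : (p : ℤ) ∣ a * (ν - ν') := by
        have e : a * (ν - ν') = (a * (ν + ρ p) + b) - (a * (ν' + ρ p) + b) := by ring
        rw [e]
        exact dvd_sub (key ν h1 hν) (key ν' h2 hν')
      rcases hpp.dvd_or_dvd h5 with h | h
      · exact hpa h
      · exact h4 h

theorem roots (a b c : ℤ) (ha : 0 < a) (hD : b ^ 2 - 4 * a * c ≠ 0) {s : ℕ} (g : Fin s → ℤ[X])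
    (hadm : ∀ p : ℕ, p.Prime → ∃ n : ℤ, ¬ (p : ℤ) ∣ a * n ^ 2 + b * n + c ∧
      ∀ j, ¬ (p : ℤ) ∣ (g j).eval n) (k : ℕ) (hk : 0 < k) (ε : ℝ) (hε : 0 < ε) :
    ∃ R X₀ : ℕ, ∃ δ : ℝ, 0 < δ ∧ ∀ X : ℕ, X₀ ≤ X → ∀ ρ : ℕ → ℤ,
    (∀ p : ℕ, p.Prime → (∃ ν : ℤ, (p : ℤ) ∣ a * ν ^ 2 + b * ν + c) →
      (p : ℤ) ∣ a * (ρ p) ^ 2 + b * (ρ p) + c) →
    ∃ h : ZMod k, ∀ t : ZMod k, (X : ℝ) ^ (1 - ε) ≤
      ((Vals a b c g (fun r ν => (((rootCount ρ r ν : ℕ) : ZMod k),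
        ((ArithmeticFunction.cardFactors r : ℕ) : ZMod k))) δ R X (t, 2 * t + h)).ncard : ℝ) := by
  have : NeZero k := ⟨hk.ne'⟩
  obtain ⟨R, X₀, δ, hδ, H⟩ := main a b c ha hD g hadm (ZMod k × ZMod k) (1, 2) 1 one_pos ε hε
  have hn1 : Tendsto (fun X : ℕ => (X : ℝ) ^ δ) atTop atTop :=
    (tendsto_rpow_atTop hδ).comp tendsto_natCast_atTop_atTop
  obtain ⟨X₁, hX₁⟩ := eventually_atTop.1 (hn1.eventually (eventually_ge_atTop (a : ℝ)))
  refine ⟨R, max X₀ X₁, δ, hδ, fun X hX ρ hρ => ?_⟩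
  have hXa := hX₁ X ((le_max_right _ _).trans hX)
  obtain ⟨⟨h₁, h₂⟩, hh⟩ := H X ((le_max_left _ _).trans hX)
    (fun r ν => (((rootCount ρ r ν : ℕ) : ZMod k),
      ((ArithmeticFunction.cardFactors r : ℕ) : ZMod k)))
    (by
      intro r s hr hs ν _
      simp only [Prod.mk_add_mk, Prod.mk.injEq]
      rw [rootCount_mul ρ r s hr hs ν, ArithmeticFunction.cardFactors_mul hr hs]
      push_cast
      exact ⟨rfl, rfl⟩)
    (by
      intro r hr ν ν' _ h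
      simp only [Prod.mk.injEq, and_true]
      rw [rootCount_congr ρ r ν ν' h])
    (by
      intro p hp _ hpX _ ν ν' h1 h2 h3
      have hpa : ¬ (p : ℤ) ∣ a := by
        intro h
        have h4 := Int.le_of_dvd ha h
        have h5 : (p : ℝ) ≤ a := by exact_mod_cast h4
        linarith
      have h4 := rootCount_add a b c ρ p hp hpa ν ν' h1 h2 (hρ p hp ⟨ν, h1⟩) h3
      simp only [Prod.mk_add_mk, Prod.mk.injEq]
      rw [ArithmeticFunction.cardFactors_apply_prime hp]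
      constructor
      · rw [← Nat.cast_add, h4, Nat.cast_one]
      · norm_num)
  refine ⟨h₂ - 2 * h₁, fun t => ?_⟩
  have h6 := hh (t - h₁).val
  have e : ((h₁, h₂) : ZMod k × ZMod k) + (t - h₁).val • ((1, 2) : ZMod k × ZMod k) =
      (t, 2 * t + (h₂ - 2 * h₁)) := by
    simp only [Prod.smul_mk, Prod.mk_add_mk, Prod.mk.injEq, nsmul_eq_mul, ZMod.natCast_val,
      ZMod.cast_id', id]
    constructor
    · ring
    · ring
  rw [e] at h6
  exact h6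

end Pool.Agent.N576.QA
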